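import Pool.Agent.helper82.T6.Defs

set_option autoImplicit false

/-!
# T6, block L: the log-free bound LF and LFS

Page: /team-store/T6_LF_helper82.md, section 1.  `V = √(2^u) / s²`.  Everything is elementary.
Useful Lean objects: `Pool.Agent.helper3.FT` (`F1, F2, Rf`), `separation` (helper63/FT/P2), `dvd_Rf` (helper8/FT/P1),
`roots_le` (helper8/FT/P3), `Rf_zero_cases` (helper97/FT/P5a), `rough_short` (helper23/Slope/RA).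
-/

namespace Pool.Agent.T6

open Finset Pool.Agent.helper3.FT

/-! ## General lattice counts -/

/-- **GP** (medium).  Packing.
Proof. Every `S k ≥ 1` (otherwise all `w i k = 0` for this `k`, and four vectors in a hyperplane are dependent).  For `g ∈ G` choose `y` with `φ y = g`; write `y = ∑ c_i w_i` with real (rational)
`c_i` (the `w_i` are a basis of `ℚ⁴`), `y_g := y - ∑ ⌊c_i⌋ w_i`: `φ y_g = g`, `|y_g k| ≤ 4 S k`.  The map `(v, g) ↦ v + y_g` on `F × G` is injective (`φ (v + y_g) = g`), its values are integer points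
with `|·| ≤ 5 S k`: at most `∏ (10 S k + 1) ≤ ∏ 11 S k`. -/
def GP_stmt : Prop :=
  ∀ (G : Type) [AddCommGroup G] [Fintype G] (φ : (Fin 4 → ℤ) →+ G), Function.Surjective φ →
    ∀ (S : Fin 4 → ℝ) (w : Fin 4 → Fin 4 → ℤ), LinearIndependent ℤ w →
    (∀ i, φ (w i) = 0 ∧ ∀ k, |(w i k : ℝ)| ≤ S k) →
    ∀ F : Finset (Fin 4 → ℤ), (∀ v ∈ F, φ v = 0 ∧ ∀ k, |(v k : ℝ)| ≤ S k) →
    (F.card : ℝ) * Fintype.card G ≤ ∏ k, (11 * S k)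

/-- **GR** (medium).  Points of rank at most 3.
Proof. The `ℚ`-span of `F` is not everything, so there are real (rational) numbers `a k`, not all zero, with `∑ a k * v k = 0` on `F`.  Choose `k₀` with `|a k₀| S k₀` maximal.
For `v ≠ v'` in `F`, `z = v - v'`: `|z k₀| / S k₀ ≤ ∑_{k ≠ k₀} |z k| / S k ≤ 3 max_{k ≠ k₀} |z k| / S k`, so some `k ≠ k₀` has `|z k| ≥ (lam/3) S k`.  The map
`v ↦ (⌊3 (v k + V S k) / (lam S k)⌋)_{k ≠ k₀}` is injective on `F`, each component is in `[0, ⌊6 V/lam⌋]`. -/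
def GR_stmt : Prop :=
  ∀ (S : Fin 4 → ℝ) (V lam : ℝ) (F : Finset (Fin 4 → ℤ)), (∀ k, 0 < S k) → 0 < lam → 0 ≤ V →
    (∀ v ∈ F, ∀ k, |(v k : ℝ)| ≤ V * S k) →
    (∀ v ∈ F, ∀ v' ∈ F, v ≠ v' → ∃ k, lam * S k ≤ |((v k - v' k : ℤ) : ℝ)|) →
    (∀ w : Fin 4 → Fin 4 → ℤ, (∀ i, w i ∈ F) → ¬ LinearIndependent ℤ w) →
    (F.card : ℝ) ≤ (1 + 6 * V / lam) ^ 3

/-! ## The norm and the lattices -/

/-- **N1** (short). -/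
def N1_stmt : Prop :=
  ∀ b : ℝ, 1 ≤ b → ∀ v w : V4, 0 ≤ nrm b v ∧ nrm b (v + w) ≤ nrm b v + nrm b w ∧ nrm b (-v) = nrm b v ∧
    (∀ k : ℤ, nrm b (k • v) = |(k : ℝ)| * nrm b v) ∧ (v ≠ 0 → 1 / b ^ 5 ≤ nrm b v) ∧ nrm b (0 : V4) = 0

/-- **N2** (short).  Closure properties.
Proof. `F1, F2` are linear in `(A,A',B,X)` and polynomial in `n = r`. -/
def N2_stmt : Prop :=
  (∀ d r : ℕ, InG d r 0) ∧ (∀ (d r : ℕ) (v w : V4), InG d r v → InG d r w → InG d r (v + w) ∧ InG d r (-v)) ∧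
  (∀ (d r : ℕ) (v : V4) (k : ℤ), InG d r v → InG d r (k • v)) ∧
  (∀ (d r : ℕ) (v : V4), InG d r ((d : ℤ) • v)) ∧
  (∀ (d d' r : ℕ) (v : V4), d' ∣ d → InG d r v → InG d' r v) ∧
  (∀ (d r r' : ℕ) (v : V4), r ≡ r' [MOD d] → InG d r v → InG d r' v) ∧
  (∀ (m d r : ℕ) (v : V4), 1 ≤ m → (InG (m * d) r ((m : ℤ) • v) ↔ InG d r v))

/-- **N3** (short).  CRT. -/
def N3_stmt : Prop :=
  ∀ (d d' r r' r'' : ℕ) (v : V4), Nat.Coprime d d' → InG d r v → InG d' r' v → r'' ≡ r [MOD d] → r'' ≡ r' [MOD d'] →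
    InG (d * d') r'' v

/-- **N4** (short-medium; from N1, N2).  The minimum is attained.
Proof. `(d, 0, 0, 0) ∈ Γ`; the `v ∈ Γ`, `v ≠ 0`, with `nrm b v ≤ nrm b (d,0,0,0)` form a finite nonempty set; take a minimum. -/
def N4_stmt : Prop :=
  ∀ (b : ℝ) (d r : ℕ), 1 ≤ b → 1 ≤ d → (∃ v : V4, v ≠ 0 ∧ InG d r v ∧ nrm b v = lamb b d r) ∧
    ∀ v : V4, v ≠ 0 → InG d r v → lamb b d r ≤ nrm b v

/-- **N5** (short; from N1, N2, N4). -/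
def N5_stmt : Prop :=
  ∀ (b : ℝ), 1 ≤ b → (∀ d r : ℕ, 1 ≤ d → 1 / b ^ 5 ≤ lamb b d r ∧ lamb b d r ≤ d) ∧
    (∀ d d' r : ℕ, 1 ≤ d → d' ∣ d → lamb b d' r ≤ lamb b d r) ∧
    (∀ m d r : ℕ, 1 ≤ m → 1 ≤ d → lamb b (m * d) r ≤ m * lamb b d r) ∧
    (∀ d r r' : ℕ, 1 ≤ d → r ≡ r' [MOD d] → lamb b d r = lamb b d r')

/-- **NBD** (medium; from GP, GR, N1, N2, N4).  Number of nonzero lattice vectors.
Proof. Identify `V4` with `Fin 4 → ℤ`; sides `S = V (b⁵, b, b⁻¹, b⁻⁵)`.  If `F` contains four independent vectors: GP with `G = ZMod d × ZMod d`, `φ v = (F1, F2)` at `(r, 1)`: surjective, as `F1 = B + ..`,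
`F2 = - 5 X + ..` and `5` is a unit; `∏ 11 S k = 14641 V⁴`.  Otherwise, if `F` is nonempty: `lamb ≤ V` and GR for `insert 0 F` with `S = (b⁵, b, b⁻¹, b⁻⁵)`, `lam = lamb`: differences are in `Γ`, nonzero, so
have `nrm ≥ lamb`, i.e. some coordinate `≥ lamb S k`; (`insert 0 F` has rank ≤ 3 too); `1 + 6 V/lamb ≤ 7 V/lamb`. -/
def NBD_stmt : Prop :=
  ∀ (b V : ℝ) (d r : ℕ) (F : Finset V4), 1 ≤ b → 1 ≤ d → Nat.Coprime d 5 → (∀ v ∈ F, v ≠ 0 ∧ InG d r v ∧ nrm b v ≤ V) →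
    (F.card : ℝ) ≤ 14641 * V ^ 4 / (d : ℝ) ^ 2 ∨ (lamb b d r ≤ V ∧ (F.card : ℝ) ≤ 343 * (V / lamb b d r) ^ 3)

/-- **NBC** (short-medium).  Small moduli.
Proof. For given `(A, A')` the coordinate `B` is in one class modulo `m` (`F1 = B + ..`) and `X` in one class modulo `m` (`5` is a unit).  So the number is at most
`(2Vb⁵+1)(2Vb+1)(2V/(bm)+1)(2V/(b⁵m)+1) ≤ 3Vb⁵ · 3Vb · 3V/(bm) · 3V/(b⁵m)`, as `m b⁵ ≤ V`. -/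
def NBC_stmt : Prop :=
  ∀ (b V : ℝ) (m r : ℕ) (F : Finset V4), 1 ≤ b → 1 ≤ m → Nat.Coprime m 5 → (m : ℝ) * b ^ 5 ≤ V →
    (∀ v ∈ F, InG m r v ∧ nrm b v ≤ V) → (F.card : ℝ) ≤ 81 * V ^ 4 / (m : ℝ) ^ 2

/-- `v` is primitive at `d` -/
def Pm (d : ℕ) (v : V4) : Prop := ∀ p : ℕ, p.Prime → p ∣ d →
  ¬ ((p : ℤ) ∣ v.1 ∧ (p : ℤ) ∣ v.2.1 ∧ (p : ℤ) ∣ v.2.2.1 ∧ (p : ℤ) ∣ v.2.2.2)

open Classical in
/-- **NRT** (medium; from `roots_le`, `separation`).  Number of roots.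
Proof. For `p ∣ d` the classes of `r` modulo `p` are among at most 3 (`roots_le`).  Two `r, r'` in the set which are congruent modulo all `p ∣ d`: `separation` (`h = d`, `(n,k) = (r,1)`, `(r',1)`; `d` is coprime
to `5 r`) gives `d ∣ r - r'`, so `r = r'`.  So the set injects into a product of at most 3-element sets over the primes of `d`. -/
def NRT_stmt : Prop :=
  ∀ (d : ℕ) (v : V4), 1 ≤ d → Rgh 5 d → Pm d v →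
    ((range d).filter (fun r => Nat.Coprime r d ∧ InG d r v)).card ≤ 3 ^ d.primeFactors.card

/-- **NRV** (short; from `dvd_Rf`).
Proof. `|A| ≤ V b⁵, |A'| ≤ V b, |B| ≤ V/b, |X| ≤ V/b⁵`; every monomial of `Rf` is `≤ V⁶` times its coefficient; `1+75+625+3125+16 = 3842`. -/
def NRV_stmt : Prop :=
  (∀ (d r : ℕ) (v : V4), Nat.Coprime d 5 → InG d r v → (d : ℤ) ∣ RV v) ∧
  ∀ (b : ℝ) (v : V4), 1 ≤ b → |(RV v : ℝ)| ≤ 3842 * nrm b v ^ 6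

/-! ## Primes in blocks -/

/-- primes of the block `J` larger than `y` -/
def pb (y J : ℕ) : Finset ℕ := (Ico (2 ^ J) (2 ^ (J + 1))).filter (fun p => p.Prime ∧ y < p)

/-- **P1** (short; from `primorial_le_4_pow`).
Proof. `(2^J)^(number) ≤ primorial (2^(J+1)) ≤ 4^(2^(J+1))`, so the number is at most `4 · 2^J / J`. -/
def P1_stmt : Prop := ∀ y J : ℕ, 1 ≤ J → ∑ p ∈ pb y J, (1 : ℝ) / p ≤ 4 / J

/-- **P2** (short-medium; from `rough_short`, helper23/Slope/RA, `Z r = 2^2^r`).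
Proof. `E` the exponent of `rough_short`.  For `j < 2E+2` trivial (`F.card ≤ X`).  Otherwise take `r` with `2^r ≤ j/(2E+2) < 2^(r+1)`: `(Z r)^E ≤ 2^(j/2) ≤ √X`, `log Z r ≥ c j`; `√X ≤ C X/(j+1)` as `X ≥ 2^j`. -/
def P2_stmt : Prop :=
  ∃ C : ℝ, 1 ≤ C ∧ ∀ (j X : ℕ) (F : Finset ℕ), 2 ^ j ≤ X →
    (∀ n ∈ F, 1 ≤ n ∧ n ≤ X ∧ ∀ p : ℕ, p.Prime → p ∣ n → j ≤ Nat.log 2 p) → (F.card : ℝ) ≤ C * X / (j + 1)

/-- **P3** (short-medium; from P1).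
Proof. `s = ∑_{p ∈ pb 0 J} 1/p ≤ 4/J ≤ 1/2`.  By induction on the number of prime factors `∑_{m ∈ M} 1/m ≤ ∑_{k ≥ 1} s^k ≤ 2 s ≤ 8/J` (or: multiset / `m = p m'` with `p = minFac m`).  Non-prime `m = p m'`, `m' > 1`
of the same kind: `≤ s · 2 s ≤ 32/J²`. -/
def P3_stmt : Prop :=
  ∀ (J : ℕ) (M : Finset ℕ), 8 ≤ J → (∀ m ∈ M, 1 < m ∧ ∀ p : ℕ, p.Prime → p ∣ m → Nat.log 2 p = J) →
    ∑ m ∈ M, (1 : ℝ) / m ≤ 8 / J ∧ ∑ m ∈ M.filter (fun m => ¬ m.Prime), (1 : ℝ) / m ≤ 32 / (J : ℝ) ^ 2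

/-- part of `d` in the blocks `< j` -/
def prt (j d : ℕ) : ℕ := ∏ p ∈ d.primeFactors.filter (fun p => Nat.log 2 p < j), p ^ d.factorization p

/-- part of `d` in the block `J` -/
def bp (J d : ℕ) : ℕ := ∏ p ∈ d.primeFactors.filter (fun p => Nat.log 2 p = J), p ^ d.factorization p

/-- blocks `< j` containing exactly one prime of `q`, with multiplicity one -/
def Sg (j q : ℕ) : Finset ℕ := (range j).filter (fun J => (bp J q).Prime)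

/-- the possible products of partners of `q` -/
def QP (y j q : ℕ) : Finset ℕ :=
  ((Sg j q).pi (fun J => pb y J)).image (fun f => ∏ x ∈ (Sg j q).attach, f x.1 x.2)

/-- **P4** (medium; from P1, P3).
Proof. `q = ∏_{J<j} bp J q` and `q ↦ (bp J q)_J` is injective; with `G_J(m) = (1/m) · (if m prime then (4/J)^(7/8) else 1)` the summand is `∏_{J<j} G_J(bp J q)` (the product over `Sg`).  So the sum is at most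
`∏_{J<j} ∑_{m ∈ T_J} G_J(m)` (`Finset.prod_univ_sum` or `prod_sum`), `T_J = {1} ∪ {bp J q : q ∈ Q}`.  For `2^(J+1) ≤ y` only `m = 1`.  Otherwise (`J ≥ 8` for `y ≥ 1024`) the factor is
`≤ 1 + (4/J)^(7/8) (4/J) + 32/J² ≤ exp(C J^(-15/8))`, and `∑ J^(-15/8)` converges. -/
def P4_stmt : Prop :=
  ∃ (C : ℝ) (y₁ : ℕ), 1 ≤ C ∧ ∀ y j : ℕ, y₁ ≤ y → ∀ Q : Finset ℕ,
    (∀ q ∈ Q, 1 ≤ q ∧ Rgh y q ∧ ∀ p : ℕ, p.Prime → p ∣ q → Nat.log 2 p < j) →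
    ∑ q ∈ Q, (1 : ℝ) / q * (∏ J ∈ Sg j q, (4 / J : ℝ)) ^ (7 / 8 : ℝ) ≤ C

/-- **P5** (short-medium; from P1, `Finset.prod_sum`).  Also the properties of the elements of `QP`.
Proof. The sum over the image is at most the sum over the functions, `= ∏_J ∑_{p ∈ pb y J} 1/p`.  For `f` in the `pi` set: the primes `f J` lie in different blocks (`Nat.log 2 (f J) = J`), so `q'` is squarefree, its primes
are `> y` and in blocks of `Sg`, and `f J < 2^(J+1) ≤ 2 · bp J q`: `q' ≤ 2^(#Sg) q`, and `y^(#Sg) ≤ q`, so for `y ≥ 32`: `q'^5 ≤ q^6`.  (`0 ∉ Sg j q`.) -/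
def P5_stmt : Prop :=
  ∀ y j q : ℕ, 1 ≤ q → Rgh y q → 32 ≤ y → ∑ q' ∈ QP y j q, (1 : ℝ) / q' ≤ ∏ J ∈ Sg j q, (4 / J : ℝ) ∧
    ∀ q' ∈ QP y j q, 1 ≤ q' ∧ q' ^ 5 ≤ q ^ 6 ∧ Rgh y q' ∧ (∀ p : ℕ, p.Prime → p ∣ q' → Nat.log 2 p < j)

/-- the number of blocks treated as small -/
def j0 (K i : ℕ) : ℕ := i / (K * (Nat.log 2 i + 1))

/-- **P6** (medium; from P1).  Rankin's trick.
Proof. `j = j0 K i`.  If `j = 0` then `q = 1` (no prime has `log < 0`), but `2^(i/50) > 1`, so `Q = ∅`.  Let `j ≥ 1`, `σ = 1/(j+1) ≤ 1/2`.  `∑ 1/q ≤ 2^(-iσ/50) ∑ q^(σ-1) ≤ 2^(-iσ/50) ∏_{p < 2^j} (1 - p^(σ-1))⁻¹`; `p^σ ≤ 2`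
for `p < 2^j`; `(1 - p^(σ-1))⁻¹ ≤ exp(C p^(σ-1)) ≤ exp(2C/p)` (`p^(σ-1) ≤ 2^(-1/2)`); by P1 (and `p = 2, 3`) the product is at most `C (j+1)^(C')`, `C'` absolute.  `j + 1 ≤ 2 i/(K (log₂ i + 1))`, so
`iσ/50 ≥ K (log₂ i + 1)/100` and `2^(-iσ/50) ≤ i^(-K/100)`.  Take `K₀ = 100 (B + C' + 1)`. -/
def P6_stmt : Prop :=
  ∀ B : ℕ, ∃ K₀ : ℕ, 1 ≤ K₀ ∧ ∀ K : ℕ, K₀ ≤ K → ∃ C : ℝ, 1 ≤ C ∧ ∀ (i : ℕ) (Q : Finset ℕ), 1 ≤ i →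
    (∀ q ∈ Q, 1 ≤ q ∧ (2 : ℝ) ^ ((i : ℝ) / 50) < q ∧ ∀ p : ℕ, p.Prime → p ∣ q → Nat.log 2 p < j0 K i) →
    ∑ q ∈ Q, (1 : ℝ) / q ≤ C / (i : ℝ) ^ B

/-- **P7** (short-medium; from P1).
Proof. `∑ B^ω(e)/e ≤ ∏_p (1 + B/p) ≤ exp(B ∑_{I=j}^J 4/I) ≤ exp(4B (1 + log(J/j)))`. -/
def P7_stmt : Prop :=
  ∀ B : ℕ, ∃ (C : ℝ) (C₁ : ℕ), 1 ≤ C ∧ ∀ (j J : ℕ) (E : Finset ℕ), 1 ≤ j → j ≤ J →
    (∀ e ∈ E, Squarefree e ∧ ∀ p : ℕ, p.Prime → p ∣ e → j ≤ Nat.log 2 p ∧ Nat.log 2 p ≤ J) →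
    ∑ e ∈ E, (B : ℝ) ^ e.primeFactors.card / e ≤ C * ((J : ℝ) / j) ^ C₁

/-! ## Chosen vectors, isolated primes, partners -/

open Classical in
/-- a chosen shortest vector with nonzero resultant -/
noncomputable def vv (b : ℝ) (d r : ℕ) : V4 := if h : Gd b d r then h.choose else 0

/-- the primes attached to `v` -/
def PV (y : ℕ) (v : V4) (p : ℕ) : Prop := p.Prime ∧ y < p ∧ ∃ r : ℕ, Nat.Coprime r p ∧ InG p r v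

/-- `p` is an isolated prime of `(d, v)` -/
def IsoP (y : ℕ) (v : V4) (d p : ℕ) : Prop :=
  p.Prime ∧ p ∣ d ∧ ¬ p ^ 2 ∣ d ∧ ∀ p' : ℕ, PV y v p' → Nat.log 2 p' = Nat.log 2 p → p' = p

/-- **VVP** (short; from NRV). -/
def VVP_stmt : Prop :=
  ∀ (b : ℝ) (y u : ℕ) (s : ℝ), 1 ≤ b → 5 ≤ y → 1 ≤ s → ∀ p ∈ SU b y u s,
    InG p.1 p.2 (vv b p.1 p.2) ∧ nrm b (vv b p.1 p.2) = lamb b p.1 p.2 ∧ RV (vv b p.1 p.2) ≠ 0 ∧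
    nrm b (vv b p.1 p.2) ≤ √(2 ^ u) / s ^ 2 ∧ vv b p.1 p.2 ≠ 0 ∧
    (∀ q : ℕ, q.Prime → q ∣ p.1 → PV y (vv b p.1 p.2) q) ∧ (p.1 : ℤ) ∣ RV (vv b p.1 p.2)

/-- **PAR** (medium; from N3, P5).  Partners.
Proof. For `J ∈ Sg j (prt j d)`: `bp J (prt j d) = bp J d = l` is prime, the only prime of `d` in the block, `l ∥ d`; it is not isolated, so there is `l' ≠ l` with `PV y v l'`, `log l' = J`; `l' ∤ d` (only `l` divides `d` in this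
block).  Choose one for every `J`: `q' = ∏ l'_J ∈ QP`; coprime to `d`; the `r'` by CRT (`N3`, induction over the product). -/
def PAR_stmt : Prop :=
  ∀ (y j d r : ℕ) (v : V4), 5 ≤ y → 1 ≤ d → Rgh y d → Nat.Coprime r d → InG d r v →
    (∀ p : ℕ, IsoP y v d p → j ≤ Nat.log 2 p) →
    ∃ q' ∈ QP y j (prt j d), Nat.Coprime q' d ∧ ∃ r' : ℕ, Nat.Coprime r' q' ∧ InG q' r' v

open Classical in
/-- the number of vectors counted in the selection step -/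
noncomputable def NBf (b V : ℝ) (H r i : ℕ) : ℝ :=
  ({v : V4 | v ≠ 0 ∧ InG H r v ∧ nrm b v ≤ V ∧ (Gd b H r ∨ nrm b v ≤ 2 ^ (i + 1) * lamb b H r)}.ncard : ℝ)

open Classical in
/-- **TRN** (medium-long; from VVP, N2, N3, N5, NRT).  The selection step: `p` is removed and recovered.
Proof. For `(d, r) ∈ S` choose `l, q', r'` as in the hypothesis; `H = d/l · q'` (`l ∤ H`), `ρ < H` with `ρ ≡ r (d/l)`, `ρ ≡ r' (q')` (coprime moduli), a unit modulo `H`, `v = vv`: `InG H ρ v` (N2, N3), `nrm b v = lamb b d r ≤ V`, and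
`lamb b d r ≤ l lamb b (d/l) r ≤ 2^(i+1) lamb b H ρ` (N5).  So `(q', H, ρ, v)` is counted on the right hand side.  The fibres have at most 3 elements: `l` is the only prime in block `i` with `PV y v l` (`IsoP`), so it is determined by `v`; `d = l H/q'`,
`r` modulo `d/l = H/q'` is determined by `ρ`, `r` modulo `l` has at most 3 values (NRT for the prime `l`; `l` does not divide `v` as `Pm d v`), and `gcd(l, d/l) = 1`. -/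
def TRN_stmt : Prop :=
  ∀ (b : ℝ) (y u i : ℕ) (s : ℝ) (S : Finset (ℕ × ℕ)) (Q : Finset ℕ) (D : ℕ → Finset ℕ), 1 ≤ b → 5 ≤ y → 1 ≤ s →
    S ⊆ SU b y u s → (∀ p ∈ S, Pm p.1 (vv b p.1 p.2) ∧ ∃ l q' : ℕ, IsoP y (vv b p.1 p.2) p.1 l ∧ Nat.log 2 l = i ∧
      q' ∈ Q ∧ Nat.Coprime q' p.1 ∧ (∃ r' : ℕ, Nat.Coprime r' q' ∧ InG q' r' (vv b p.1 p.2)) ∧ 1 ≤ q' ∧ p.1 / l * q' ∈ D q') →
    (S.card : ℝ) ≤ 3 * ∑ q' ∈ Q, ∑ H ∈ D q', ∑ r ∈ (range H).filter (fun r => Nat.Coprime r H),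
      NBf b (√(2 ^ u) / s ^ 2) H r i

open Classical in
/-- **NBF** (short; from NBD).
Proof. The set is finite.  Good: NBD.  Not good: the set is contained in the ball of radius `V' = min V (2^(i+1) lamb)`; NBD with `V'`: `≤ 14641 V'⁴/H² ` or `≤ 343 (V'/lamb)³ ≤ 343 · 8^(i+1)` (and `lamb ≤ V`). -/
def NBF_stmt : Prop :=
  ∀ (b V : ℝ) (H r i : ℕ), 1 ≤ b → 1 ≤ H → Nat.Coprime H 5 → 0 ≤ V →
    NBf b V H r i ≤ 14641 * V ^ 4 / (H : ℝ) ^ 2 +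
      (if Gd b H r ∧ lamb b H r ≤ V then 343 * (V / lamb b H r) ^ 3 else 0) +
      (if ¬ Gd b H r ∧ lamb b H r ≤ V then 343 * 8 ^ (i + 1) else 0)

/-! ## The induction -/

/-- potentials -/
structure Pot (Φ : ℕ → ℝ) : Prop where
  two : ∀ w, 2 ≤ Φ w
  gr : ∀ w u : ℕ, w ≤ u → Φ w ≤ (2 : ℝ) ^ (((u - w : ℕ) : ℝ) / 100) * Φ u

/-- the induction hypothesis -/
def IH (b : ℝ) (y : ℕ) (Φ : ℕ → ℝ) (u : ℕ) : Prop :=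
  ∀ w < u, ∀ s : ℝ, 0 < s → ((SU b y w s).card : ℝ) * s ^ 7 ≤ Φ w * 4 ^ w

/-- the main range -/
structure MR (b : ℝ) (u : ℕ) (s : ℝ) : Prop where
  b1 : 1 ≤ b
  b2 : b ≤ (2 : ℝ) ^ ((u : ℝ) / 100)
  s1 : 1 ≤ s
  s2 : s ≤ (2 : ℝ) ^ ((u : ℝ) / 400)

/-- **C0** (short).
Proof. `∑_{2^u ≤ d < 2^(u+1)} d ≤ 2 · 4^u`.  If `SU` is nonempty, `s² ≤ √(2^u)/lamb ≤ 2^(u/2) b⁵` (N5), so `s⁷ ≤ 2^(7u/4) b^(35/2)`. -/
def C0_stmt : Prop :=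
  (∀ y u : ℕ, ((PR y u).card : ℝ) ≤ 2 * 4 ^ u) ∧
  ∀ (b : ℝ) (y u : ℕ) (s : ℝ), 1 ≤ b → 0 < s →
    ((SU b y u s).card : ℝ) * s ^ 7 ≤ 2 * 4 ^ u * ((2 : ℝ) ^ (7 * (u : ℝ) / 4) * b ^ 18)

/-- **C2** (medium; from N1, N2, NRT, NRV, VVP).  Divisor bound.
Proof. `v = vv`, `g = gcd(d, content v)`, `(d', r', v') = (d/g, r mod d/g, v/g)`: `(d,r) ↦ (g, d', r', v', r / (d/g))` is injective.  `v'` is primitive at `d'` (`gcd(d/g, content(v)/g) = 1`), `InG d' r' v'` (N2), `RV v' ≠ 0`,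
`nrm v' ≤ V/g`.  For given `g` and `v'`: `d' ∣ RV v'`, `|RV v'| ≤ 3842 · 8^u`, so at most `C_ε 2^(εu)` values of `d'`, each with at most `3^ω(d') ≤ C_ε 2^(εu)` values `r'`, and `r/(d/g) < g`.  The number of `v'` with `nrm ≤ V/g` is (as
`V/g ≥ b⁻⁵`) at most `∏ (2 (V/g) s_i + 1) ≤ (3 b⁵ V b^5 /g)⁴ `, i.e. `≤ 81 b^40 V⁴/g⁴`.  `∑_g g · g⁻⁴` converges; `V⁴ = 4^u/s⁸`. -/
def C2_stmt : Prop :=
  ∀ ε : ℝ, 0 < ε → ∃ C : ℝ, 1 ≤ C ∧ ∀ (b : ℝ) (y u : ℕ) (s : ℝ), 1 ≤ b → 5 ≤ y → 1 ≤ s →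
    ((SU b y u s).card : ℝ) ≤ C * (2 : ℝ) ^ (ε * u) * b ^ 40 * (4 ^ u / s ^ 8)

/-- powerful part -/
def pw (d : ℕ) : ℕ := ∏ p ∈ d.primeFactors.filter (fun p => 2 ≤ d.factorization p), p ^ d.factorization p

open Classical in
/-- **C3** (short-medium).  Large powerful part.
Proof. `pw d ∣ d` is powerful: `pw d = a² c³`; `∑_{s powerful, s > Z} 1/s ≤ C Z^(-1/2)` (`s = a² c³`, `∑_c c⁻³ ∑_{a > √(Z/c³)} a⁻² `).  The number of `(d, r)` with `s ∣ d` is at most `(2^(u+1)/s) 2^(u+1)`.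
`powerful part` sum: `∑_{s powerful} 4^ω(s)/s` is bounded (second claim): Euler product `∏ (1 + 4/(p(p-1)))`. -/
def C3_stmt : Prop :=
  ∃ C : ℝ, 1 ≤ C ∧ (∀ y u : ℕ, (((PR y u).filter (fun p => (2 : ℝ) ^ ((u : ℝ) / 25) < pw p.1)).card : ℝ) ≤
      C * 4 ^ u * (2 : ℝ) ^ (-((u : ℝ) / 50))) ∧
    ∀ S : Finset ℕ, (∀ s ∈ S, 1 ≤ s ∧ ∀ p : ℕ, p.Prime → p ∣ s → p ^ 2 ∣ s) →
      ∑ s ∈ S, (4 : ℝ) ^ s.primeFactors.card / s ≤ C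

open Classical in
/-- **C4** (medium; from VVP, N2, N5, C0).  Vectors which are not primitive at `d`.
Proof. `p ∣ d`, `p ∣ v = vv b d r` (`p > y`): `v/p ∈ Γ_{d/p,r}`, and it is a shortest vector: `lamb b d r ≤ p lamb b (d/p) r` (N5) `≤ p nrm (v/p) = nrm v`.  `RV (v/p) ≠ 0`.  So `(d/p, r mod d/p) ∈ SU b y w s'` for `w = log₂(d/p)`,
`s'² = s² p √(2^w)/√(2^u) ≥ s² √(p/2)`, `2^w ≤ 2^(u+1)/p`, and `(d,r) ↦ (p, (d/p, r mod d/p), r/(d/p))` is injective with `r/(d/p) < p`.  `w` takes at most 2 values for each `p`: IH and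
`Pot.gr`: `≤ ∑_{p>y} p · 2 · 2^((log₂ p + 1)/100) Φ(u) · 4 · 4^u/p² · s⁻⁷ (p/2)^(-7/4) ≤ C y⁻¹ Φ(u) 4^u s⁻⁷`. -/
def C4_stmt : Prop :=
  ∃ C : ℝ, 1 ≤ C ∧ ∀ (b : ℝ) (y u : ℕ) (s : ℝ) (Φ : ℕ → ℝ), 1 ≤ b → 5 ≤ y → 1 ≤ s → Pot Φ → IH b y Φ u →
    (((SU b y u s).filter (fun p => ¬ Pm p.1 (vv b p.1 p.2))).card : ℝ) * s ^ 7 ≤ C / y * Φ u * 4 ^ u

open Classical in
/-- **C5** (medium).  Tail sum.
Proof. `X₀ = √(2^w)/V`, `x = √(2^w)/lamb ≥ X₀`.  The pairs with `x ∈ [2^k X₀, 2^(k+1) X₀)` are in `SU b y w s` with `s² = 2^k X₀` : at most `Φ(w) 4^w (2^k X₀)^(-7/2)`, each term is at most `8^(k+1)`: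
`∑_k 8^(k+1) Φ 4^w (2^k X₀)^(-7/2) = 8 Φ 4^w X₀^(-7/2) ∑ 2^(-k/2)` (finite set: finitely many `k`). -/
def C5_stmt : Prop :=
  ∃ C : ℝ, 1 ≤ C ∧ ∀ (b : ℝ) (y u : ℕ) (Φ : ℕ → ℝ), 1 ≤ b → Pot Φ → IH b y Φ u → ∀ w < u, ∀ V : ℝ, 0 < V →
    ∑ p ∈ (PR y w).filter (fun p => Gd b p.1 p.2 ∧ lamb b p.1 p.2 ≤ V), (V / lamb b p.1 p.2) ^ 3 ≤
      C * Φ w * 4 ^ w * (V / √(2 ^ w)) ^ (7 / 2 : ℝ)

open Classical in
/-- **C6** (short-medium; from C5).  The sum of the good errors over the levels `≤ w₀ < u`.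
Proof. `V/√(2^w) = 2^((u-w)/2)/s²`; C5: `C Φ(w) 4^w 2^(7(u-w)/4) s⁻⁷ = C Φ(w) 4^u 2^(-(u-w)/4) s⁻⁷ ≤ C Φ(u) 4^u s⁻⁷ 2^(-(24/100)(u-w))`; geometric sum over `w ≤ w₀`. -/
def C6_stmt : Prop :=
  ∃ C : ℝ, 1 ≤ C ∧ ∀ (b : ℝ) (y u w₀ : ℕ) (s : ℝ) (Φ : ℕ → ℝ), 1 ≤ b → 1 ≤ s → Pot Φ → IH b y Φ u → w₀ < u →
    (∑ w ∈ range (w₀ + 1), ∑ p ∈ (PR y w).filter (fun p => Gd b p.1 p.2 ∧ lamb b p.1 p.2 ≤ √(2 ^ u) / s ^ 2),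
      343 * (√(2 ^ u) / s ^ 2 / lamb b p.1 p.2) ^ 3) * s ^ 7 ≤ C * Φ u * 4 ^ u * (2 : ℝ) ^ (-(((u - w₀ : ℕ) : ℝ) / 5))

/-! ## Lemma Z: vectors with resultant zero -/

/-- the plane `W_{n,k}` -/
def InW (n k : ℤ) (v : V4) : Prop := F1 v.1 v.2.1 v.2.2.1 n k = 0 ∧ F2 v.2.1 v.2.2.1 v.2.2.2 n k = 0

/-- **Z1** (short-medium).  Parametrisation of `W_{n,k}`.
Proof. `n ∣ B k³ = -5An³+2A'nk²`, so `n ∣ B`; `k ∣ A' n³`, so `k ∣ A'`; continue (or: `5X n³... `): `k³ ∣ 5A n³ - 2A'nk²+..`: see the helper module of `count_root` (FT P5b): `5A = k³ a`, `5X = n³ x`, `5A' = k (x k² + 2 a n²)`,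
`5B = n (2 x k² - a n²)` with integers `a, x`; then `5 ∣ a` and `5 ∣ x` (if `5 ∤ k` then `5 ∣ a`, and `5 ∣ x k³`; if `5 ∣ k` then `5 ∤ n`, `5 ∣ x`, `5 ∣ a n³`). -/
def Z1_stmt : Prop :=
  ∀ (n k : ℤ) (v : V4), IsCoprime n k → n ≠ 0 → k ≠ 0 → InW n k v → ∃ a x : ℤ,
    v = (k ^ 3 * a, k * (x * k ^ 2 + 2 * a * n ^ 2), n * (2 * x * k ^ 2 - a * n ^ 2), n ^ 3 * x)

/-- **Z2** (short; from Z1).  Sizes: `(a, x) ≠ 0`; if `a ≠ 0` then `|k|³ ≤ |A|` and (if `x = 0`) `|n|³ ≤ |B|`; if `x ≠ 0` then `|n|³ ≤ |X|` and (if `a = 0`) `|k|³ ≤ |A'|`. -/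
def Z2_stmt : Prop :=
  ∀ (b V : ℝ) (n k : ℤ) (v : V4), 1 ≤ b → IsCoprime n k → n ≠ 0 → k ≠ 0 → InW n k v → v ≠ 0 → nrm b v ≤ V →
    |(n : ℝ)| ^ 3 ≤ V * b ^ 5 ∧ |(k : ℝ)| ^ 3 ≤ V * b ^ 5

/-- **Z3** (medium).  The determinant.
Proof. `M` = the matrix with rows `(5r³,-2r,1,0), (0,r³,2r²,-5), (5n³,-2nk²,k³,0), (0,n³,2n²k,-5k³)`; `M v ≡ 0 (mod p^a)`; `adj(M) M = det M`, `det M = - 25 (kr-n)² (k²r²+3nkr+n²)²`, `v` is not `0` modulo `p` (if `p ∤ v_i` then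
`p^a ∣ det M · v_i`).  If `p ∣ kr-n`: `p ∤ n k` and `separation` with `(n,k)`, `(r,1)`, `h = p^a`. -/
def Z3_stmt : Prop :=
  ∀ (p a r : ℕ) (n k : ℤ) (v : V4), p.Prime → 5 < p → 1 ≤ a → Nat.Coprime r p → IsCoprime n k → n ≠ 0 → k ≠ 0 → InW n k v →
    Pm p v → InG (p ^ a) r v →
    ((p : ℤ) ∣ k * r - n → (p : ℤ) ^ a ∣ k * r - n) ∧
    (¬ (p : ℤ) ∣ k * r - n → (p : ℤ) ^ a ∣ (k ^ 2 * r ^ 2 + 3 * n * k * r + n ^ 2) ^ 2)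

open Classical in
/-- **Z4** (medium).  Number of `r` modulo `p^a`.
Proof. `p^c ∣ E(r) = k²r²+3nkr+n²`, `c = ⌈a/2⌉`.  `p ∤ k` and `p ∤ n` (else `p ∣ n²`, resp. `p ∣ k²r²`).  Two solutions: `E(r) - E(r') = k (r-r')(k (r+r') + 3n)`; if `p` divided both factors then `p ∣ 2kr+3n`,
`(2kr+3n)² - 4E = 5n²`, contradiction; so `r ≡ r'` or `k(r+r') ≡ -3n` modulo `p^c`: at most 2 classes modulo `p^c`, each has `p^(a-c)` lifts. -/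
def Z4_stmt : Prop :=
  ∀ (p a : ℕ) (n k : ℤ), p.Prime → 5 < p → 1 ≤ a → IsCoprime n k →
    (((range (p ^ a)).filter (fun r => Nat.Coprime r p ∧
      (p : ℤ) ^ a ∣ (k ^ 2 * r ^ 2 + 3 * n * k * r + n ^ 2) ^ 2)).card) ≤ 2 * p ^ (a / 2)

open Classical in
/-- **Z5** (medium-long; from Z3, Z4).  Pairs for one plane.
Proof. `H = H' E`, `H'` the part of `H` with the primes dividing `kr-n`.  By Z3 `r` modulo `H'` is determined by `(n,k)`, and modulo every `p^a ∥ E` there are at most `2 p^(a/2)` values (natural number division).  For given `E` the number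
of `H'` is at most `2^(w+1)/E`.  Total `≤ 2^(w+1) ∑_E ∏_{p^a ∥ E} 2 p^(a/2)/p^a`.  Write `E = E₁² E₂`, `E₂` squarefree: the summand is at most `2^ω(E)/(E₁ E₂) ≤ τ(E₁)τ(E₂)/(E₁E₂)`; sum over `E₁, E₂ ≤ 2^(w+1)`: `≤ C (w+1)^4 ≤ C_ε 2^(εw)`. -/
def Z5_stmt : Prop :=
  ∀ ε : ℝ, 0 < ε → ∃ C : ℝ, 1 ≤ C ∧ ∀ (y w : ℕ) (n k : ℤ), 5 ≤ y → IsCoprime n k → n ≠ 0 → k ≠ 0 →
    (((PR y w).filter (fun p => ∃ v : V4, Pm p.1 v ∧ InW n k v ∧ InG p.1 p.2 v)).card : ℝ) ≤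
      C * (2 : ℝ) ^ ((1 + ε) * w)

/-- **Z6** (medium; from `Rf_zero_cases`).  Primitive vectors with resultant zero.
Proof. `Rf_zero_cases`.  A rational zero `(n,k)` with `n k ≠ 0`: first alternative.  `n = 0` (`k = ±1`): `B = 0, X = 0`; then `H ∣ A' r³`, so `H ∣ A'`, `H ∣ 5 A r³`, `H ∣ A`: contradiction to `Pm H v`, `H > 1`.  `k = 0`: `A = A' = 0`,
`H ∣ B`, `H ∣ 5X`.  Second case of `Rf_zero_cases`: `B = 0` (so `A X = 0`): `A = 0`: `F1 = -2A'r`: `H ∣ A'`, `H ∣ 5X`; `X = 0`: `H ∣ A' r³`, `H ∣ 5Ar³`: contradictions.  `B ≠ 0`, `5AB² = A'³`, `A'B = 25AX`: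
`A = 0` gives `A' = 0`: `H ∣ B`, `H ∣ 5X`, contradiction.  So `A, A', B, X ≠ 0`, `5 X A'² = B³`. -/
def Z6_stmt : Prop :=
  ∀ (H r : ℕ) (v : V4), 1 < H → Rgh 5 H → Nat.Coprime r H → InG H r v → Pm H v → RV v = 0 →
    (∃ n k : ℤ, IsCoprime n k ∧ n ≠ 0 ∧ k ≠ 0 ∧ InW n k v) ∨
    (v.2.1 ≠ 0 ∧ v.2.2.1 ≠ 0 ∧ 5 * v.1 * v.2.2.1 ^ 2 = v.2.1 ^ 3 ∧ 5 * v.2.2.2 * v.2.1 ^ 2 = v.2.2.1 ^ 3)

/-- **Z7** (medium).  The special vectors.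
Proof. `A, X` are determined by `(A', B)`.  For every prime `p`: `2 v(A') ≤ 3 v(B)` (from `5XA'² = B³`), so `v(A') ≤ 2 v(B)`: `A' ∣ B²`.  So for given `B` at most `2 τ(B²) ≤ C_ε |B|^ε` values of `A'`; `1 ≤ |B| ≤ V`. -/
def Z7_stmt : Prop :=
  ∀ ε : ℝ, 0 < ε → ∃ C : ℝ, 1 ≤ C ∧ ∀ (b V : ℝ) (F : Finset V4), 1 ≤ b → 1 ≤ V → (∀ v ∈ F, nrm b v ≤ V ∧
    v.2.1 ≠ 0 ∧ v.2.2.1 ≠ 0 ∧ 5 * v.1 * v.2.2.1 ^ 2 = v.2.1 ^ 3 ∧ 5 * v.2.2.2 * v.2.1 ^ 2 = v.2.2.1 ^ 3) →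
    (F.card : ℝ) ≤ C * V ^ (1 + ε)

open Classical in
/-- **Z8** (medium-long; from N1, N2, NRT, Z2, Z5, Z6, Z7).  Lemma Z.
Proof. `g = gcd(H, content v)`, `(H', r', v') = (H/g, r mod H/g, v/g)`; `(H,r) ↦ (g, H', r', r/(H/g))` injective, the last entry is `< g`; `g < H`: otherwise `H ∣ v`, `nrm v ≥ H b⁻⁵ ≥ 2^w b⁻⁵ > V`.  `v'` is primitive at `H' > 1`,
`RV v' = 0`, `nrm v' ≤ V/g`, `g ≤ V b⁵` (N1).  Z6.  First case: `(n,k)`: `|n|, |k| ≤ (V b⁵/g)^(1/3)` (Z2; at least 1): at most `9 (V b⁵/g)^(2/3)` pairs `(n,k)`, each with `≤ C 2^((1+ε)w')` pairs `(H',r')` of level `w'`,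
`2^w' ≤ 2^(w+1)/g` (two levels).  Sum over `g ≤ V b⁵`: `g · (V b⁵/g)^(2/3) · 2^((1+ε)w) g⁻¹ · C`, sum `≤ C V b⁵ 2^((1+ε)w)`.  Second case: at most `C (V b^5/g)^(1+ε)` vectors `v'` (if `V/g < 1` use that `|B| ≥ 1`: then there is none, as `|B| b ≤ V/g`),
each with at most `2^(w+1)/g` values `H'` and `3^ω(H')` values `r'` (NRT): `∑_g g · (V/g)^(1+ε) 2^(w+1)/g · C 2^(εw) ≤ C V^(1+ε) 2^((1+ε)w)`.  Use `V ≤ 2^w`. -/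
def Z8_stmt : Prop :=
  ∀ ε : ℝ, 0 < ε → ∃ C : ℝ, 1 ≤ C ∧ ∀ (b V : ℝ) (y w : ℕ), 1 ≤ b → 5 ≤ y → 0 < V → V * b ^ 5 < 2 ^ w →
    (((PR y w).filter (fun p => ∃ v : V4, v ≠ 0 ∧ InG p.1 p.2 v ∧ RV v = 0 ∧ nrm b v ≤ V)).card : ℝ) ≤
      C * b ^ 5 * V * (2 : ℝ) ^ ((1 + ε) * w)

open Classical in
/-- **Z9** (short-medium; from Z8, N4, C0).  The bad errors.
Proof. `w ≤ 3u/5`: C0: `2 · 4^w ≤ 2 · 2^(6u/5)`.  `w > 3u/5`: `V = √(2^u)/s² ≤ 2^(u/2)`, `V b⁵ ≤ 2^(u/2+u/20) < 2^w`; not good: a shortest vector (N4) has `RV = 0`, `nrm ≤ V`: Z8 with `ε = 1/200`. -/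
def Z9_stmt : Prop :=
  ∃ C : ℝ, 1 ≤ C ∧ ∀ (b : ℝ) (y u : ℕ) (s : ℝ), MR b u s → 5 ≤ y →
    ∑ w ∈ range u, (((PR y w).filter (fun p => ¬ Gd b p.1 p.2 ∧ lamb b p.1 p.2 ≤ √(2 ^ u) / s ^ 2)).card : ℝ) ≤
      C * b ^ 5 * (2 : ℝ) ^ (151 * (u : ℝ) / 100)

end Pool.Agent.T6
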