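import Pool.Agent.helper82.T6.Defs
import Pool.Agent.helper8.T6.DefsC
import Pool.Agent.helper95.T5.SpecE
import Pool.Agent.helper65.FT.E3

set_option autoImplicit false

/-!
# T6, block W: `LFS_stmt → WG_stmt` (Weyl sums without logarithms)

Page: /team-store/T6_LF_helper82.md, section 2.  Notation: `q = n³ k`, near points `nearPts M G a b c` as in FT.
Landed T5 rows that are used: RE1 (helper43/T5), RE2 (helper71/T5), DM (helper18/T5, model of WDM), TR (helper11/T5), CZ (helper8/T5), CBR (helper59/T5);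
FT: `fejer` (helper65/FT/E3), `cells` (helper63/FT/E2, model), `family` (helper96/FT/P4), `pairs_card` (helper96/FT/P7).
-/

namespace Pool.Agent.T6

open Finset Pool.Agent.helper3.FT Pool.Agent.T5

/-- **WDM** (short-medium; the algebra of DM, helper18/T5, with the linear relations).
Proof. Modulo `n³`: `k² ξ ≡ - h v` (`α ≡ 0`, `k² β ≡ -1`), so `A` exists; modulo `k`: `n² ξ ≡ 2 h u` (`n² α ≡ 1`, `β ≡ 0`), `Ξ ≡ 0` (`β ≡ γ ≡ 0`), so `X` exists; modulo `n³`: `k⁴ Ξ ≡ - h k² u + 2 n² h v ≡ - h k² u - 2 n² k² ξ`, so `A'` exists;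
`n² (2 n A' - 5 ξ) = 2 h u - n² ξ + 2 k² Ξ ≡ 0 (k)`, so `B` exists.  The last two equations by substitution. -/
def WDM_stmt : Prop :=
  ∀ (n k h u v ξ Ξ α β γ : ℤ), n ≠ 0 → k ≠ 0 → IsCoprime n k → ResG n k 1 1 1 1 α β γ →
    n ^ 3 * k ∣ ξ - h * (2 * α * u + β * v) → n ^ 3 * k ∣ Ξ - h * (β * u + 2 * γ * v) →
    ∃ A A' B X : ℤ, n ^ 3 * A = h * v + k ^ 2 * ξ ∧ n ^ 3 * A' = h * u + 2 * n ^ 2 * ξ + k ^ 2 * Ξ ∧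
      k * B = 2 * n * A' - 5 * ξ ∧ k * X = Ξ ∧ 5 * h * v = F1 A A' B n k ∧ 5 * h * u = F2 A' B X n k

/-- **WNR** (medium-long; from WDM, GP, GR, N2, N4).  Near points.
Proof. For a near point `(u,v)` put `ξ = h (2αu + βv) - q round(..)`, `Ξ` likewise: `|ξ| ≤ q/M`, `|Ξ| ≤ q/G`.  The set `P` of the `(u,v,ξ,Ξ) ∈ ℤ⁴` lies in the kernel of the surjective map `ℤ⁴ → (ℤ/q)²`, `(ξ - h(2αu+βv), Ξ - h(βu+2γv))`.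
(1) If `P` contains four independent vectors: GP with `S = (4M, 4G, q/M, q/G)`: `#P q² ≤ 11⁴ · 16 q²`.
(2) Otherwise WDM gives an injective linear (over `ℚ`) map `P → V4`, `(u,v,ξ,Ξ) ↦ (A,A',B,X)`; four vectors of the image are dependent; each is in `InG δ r` (`δ ∣ h`, `n ≡ r k`, `k` a unit modulo `δ`: `F1 v n k ≡ k³ F1 v r 1`), and `nrm b ≤ ρ` by the four
size hypotheses; differences are nonzero vectors of `Γ_{δ,r}`, so have `nrm ≥ lamb b δ r` (N4).  GR with `S = (b⁵, b, b⁻¹, b⁻⁵)`, `V = ρ`, `lam = lamb b δ r`. -/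
def WNR_stmt : Prop :=
  ∀ (n k M G h δ r : ℕ) (α β γ : ℤ) (b ρ : ℝ), 1 ≤ n → 1 ≤ k → 1 ≤ M → 1 ≤ G → 1 ≤ h → Nat.Coprime n k →
    ResG n k 1 1 1 1 α β γ → 1 ≤ b → 0 ≤ ρ → 1 ≤ δ → δ ∣ h → Nat.Coprime δ (5 * (n * k)) → (δ : ℤ) ∣ (r : ℤ) * k - n →
    4 * (h : ℝ) * G / (n : ℝ) ^ 3 + (k : ℝ) ^ 3 / M ≤ ρ * b ^ 5 →
    4 * (h : ℝ) * M / (n : ℝ) ^ 3 + 2 * (n : ℝ) ^ 2 * k / M + (k : ℝ) ^ 3 / G ≤ ρ * b →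
    2 * (n : ℝ) / k * (4 * (h : ℝ) * M / (n : ℝ) ^ 3 + 2 * (n : ℝ) ^ 2 * k / M + (k : ℝ) ^ 3 / G) + 5 * (n : ℝ) ^ 3 / M ≤ ρ / b →
    (n : ℝ) ^ 3 / G ≤ ρ / b ^ 5 →
    ((nearPts M G (h * α / ((n : ℝ) ^ 3 * k)) (h * β / ((n : ℝ) ^ 3 * k)) (h * γ / ((n : ℝ) ^ 3 * k))).card : ℝ) ≤ 234256 ∨
    ((nearPts M G (h * α / ((n : ℝ) ^ 3 * k)) (h * β / ((n : ℝ) ^ 3 * k)) (h * γ / ((n : ℝ) ^ 3 * k))).card : ℝ) ≤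
      (1 + 6 * ρ / lamb b δ r) ^ 3

/-- the tent weight, at least 1 on `[-L, L]`, supported in `[-2L, 2L]` -/
noncomputable def tw (L : ℕ) (m : ℤ) : ℝ := max 0 ((2 * L + 1 - |(m : ℝ)|) / L)

/-- the weighted exponential sum -/
noncomputable def TS (L L' : ℕ) (c : Fin 5 → ℝ) : ℂ :=
  ∑ m ∈ Icc (-(2 * L : ℤ)) (2 * L), ∑ g ∈ Icc (-(2 * L' : ℤ)) (2 * L'),
    ((tw L m * tw L' g : ℝ) : ℂ) * e (c 0 * m ^ 2 + c 1 * m * g + c 2 * g ^ 2 + c 3 * m + c 4 * g)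

/-- **WWY** (medium-long; the cell argument as in `cells`, helper63/FT/E2, but without logarithms).
Proof. `tw L m = (1/L) #{(a,b) ∈ [-L,L]² : a + b = m}`.  So `TS = (1/(L L')) ∑_{a,b ∈ [-L,L], a',b' ∈ [-L',L']} e(φ(a+b, a'+b'))` and `φ(a+b,a'+b') = φ(a,a') + φ(b,b') + θ₁(b,b') a + θ₂(b,b') a'`, `θ₁(u,v) = 2 c₀ u + c₁ v`, `θ₂(u,v) = c₁ u + 2 c₂ v`.  Cauchy in `(a,a')`:
`|TS|² ≤ (2L+1)(2L'+1)/(LL')² ∑_{a,a'} |∑_{b,b'} e(φ(b,b')) e(θ₁ a + θ₂ a')|²`; bound `1_{|a| ≤ L} ≤ 2 T(a)`, `T(a) = max(0, 1 - |a|/(2L))`, and extend to all `a ∈ (-2L, 2L)`; `∑_a T(a) e(θ a) = F_L(θ) := (1/(2L)) |∑_{j<2L} e(jθ)|² ∈ [0, min(2L, 1/(8 L nd(θ)²))]`.  So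
`|TS|² ≤ 9·9·4 ∑_{|u| ≤ 2L, |v| ≤ 2L'} F_L(θ₁(u,v)) F_{L'}(θ₂(u,v))`.  Cells: let `θ₁ mod 1 ∈ [i/L, (i+1)/L)` with `-1/2 ≤ θ₁ mod 1 < 1/2`, the same for `θ₂` with `L'`; the differences of two points of one cell are near points (`|u-u'| ≤ 4L`, `nd ≤ 1/L`), so every
cell has at most `#nearPts` points; on the cell `i`: `F_L ≤ 2L` and `F_L ≤ L/(8 min(|i|,|i+1|)²)`: `∑_i sup F_L ≤ C L`. -/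
def WWY_stmt : Prop :=
  ∃ C : ℝ, 1 ≤ C ∧ ∀ (L L' : ℕ) (c : Fin 5 → ℝ), 1 ≤ L → 1 ≤ L' →
    ‖TS L L' c‖ ^ 2 ≤ C * L * L' * ((nearPts L L' (c 0) (c 1) (c 2)).card : ℝ)

/-- **WFJ** (short-medium; as `fejer`, helper65/FT/E3, with weights).
Proof. `K(x) = (1/T²) |∑_{j<T} e(jx)|² = (1/T²) ∑_{|h|<T} (T-|h|) e(hx) ≥ 1/2` for `nd x ≤ 1/(8T)`; sum with weights, `‖∑ w e(-hx)‖ = ‖∑ w e(hx)‖`. -/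
def WFJ_stmt : Prop :=
  ∀ {ι : Type} (s : Finset ι) (w x : ι → ℝ) (T : ℕ), 1 ≤ T → (∀ i ∈ s, 0 ≤ w i) →
    ∑ i ∈ s.filter (fun i => nd (x i) * (8 * T) ≤ 1), w i ≤
      2 / T * (∑ i ∈ s, w i + 2 * ∑ h ∈ Ico 1 T, ‖∑ i ∈ s, (w i : ℂ) * e (h * x i)‖)

/-- **WCL** (medium; from RE1, RE2, TR of T5).  The classes for one pair, as one congruence for `Z`.
Proof. `r = e2 es n`, `s' = e1 es n`: `r s' = es`, `r` has only primes dividing `n`, `s'` is coprime to `n`: RE1 (`q₁ = q₂ = 1`), RE2 with `c = x.c`, `c' = x.c'`; for a tuple, `n³ ∣ ..` and `k ∣ ..` and the class conditions `s' ∣ RR - c`, `r ∣ RR' - c'`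
mean `n³ k es ∣ z - (α m² + β m g + γ g² + c₀)` (TR: `z k⁴ + m g k² - g² n² = - n³ RR'`, `z n² - m² = k RR`).  With `m = m₀ + E m'`, `g = g₀ + E g'` (`E = er es`, `m₀ = x.m mod E`): combine with `er² ∣ z - (u + v m + w g)` by CRT
(`gcd(er, n k es) = 1`): `z ≡ ε₁ (α m² + .. + c₀) + ε₂ (u + v m + w g)` modulo `Q = n³ k es er²`, `ε₁ = er² ē`, `ē er² ≡ 1 (n³ k es)`.  Real coefficient of `m'²` divided by `Q`: `ē α er² es² /(n³ k es) ≡ es α/(n³ k)` modulo 1; the same for `m'g'`, `g'²`.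
So `z/Q ≡ (es/q)(α m'² + β m' g' + γ g'²) + c₃ m' + c₄ g' + c₅` modulo 1.  (`ResG n k 1 1 r s'` implies `ResG n k 1 1 1 1`.) -/
def WCL_stmt : Prop :=
  ∀ (n k er es : ℕ), 1 ≤ n → 1 ≤ k → 1 ≤ er → 1 ≤ es → Nat.Coprime n k → Nat.Coprime er es → Nat.Coprime (n * k) er →
    ∃ α β γ : ℤ, ResG n k 1 1 1 1 α β γ ∧ ∀ x : Cls, ∃ (m₀ g₀ : ℤ) (c₃ c₄ c₅ : ℝ), 0 ≤ m₀ ∧ m₀ < er * es ∧ 0 ≤ g₀ ∧ g₀ < er * es ∧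
      ∀ t : Tpl, IsT t → t.1 = (n, k) → InC er es x t → ∃ m' g' : ℤ, t.2.1 = m₀ + er * es * m' ∧ t.2.2.1 = g₀ + er * es * g' ∧
        ∃ z' : ℤ, (t.2.2.2 : ℝ) / ((n : ℝ) ^ 3 * k * es * (er : ℝ) ^ 2) =
          (es : ℝ) / ((n : ℝ) ^ 3 * k) * (α * m' ^ 2 + β * m' * g' + γ * g' ^ 2) + c₃ * m' + c₄ * g' + c₅ + z'

open Classical in
/-- **WPC** (medium; from WCL, WFJ, WWY).  Count for one pair and one class.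
Proof. WCL: `t ↦ (m', g')` is injective on `F` (given `(m',g')`, `z` is determined modulo `Q` and `z ∈ (z₀, z₀+V]`, `V ≤ Q`); `|m'| ≤ L`, `|g'| ≤ L'`.  `i = (m',g') ∈ [-2L,2L] × [-2L',2L']`, `w = tw L m' tw L' g'` (`≥ 1` on the image), `x = ` the right hand side
minus `(z₀ + V/2)/Q`: `nd x ≤ V/(2Q) ≤ 1/(8T)`.  WFJ; `∑ w ≤ 81 L L'`; the coefficients of `TS` for the frequency `h` are `h es α/q` etc.: WWY, `‖TS‖ ≤ √(C L L' near)`. -/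
def WPC_stmt : Prop :=
  ∃ C : ℝ, 1 ≤ C ∧ ∀ (n k er es : ℕ), 1 ≤ n → 1 ≤ k → 1 ≤ er → 1 ≤ es → Nat.Coprime n k → Nat.Coprime er es → Nat.Coprime (n * k) er →
    ∃ α β γ : ℤ, ResG n k 1 1 1 1 α β γ ∧ ∀ (x : Cls) (L L' T : ℕ) (z₀ V : ℝ) (F : Finset Tpl), 1 ≤ L → 1 ≤ L' → 1 ≤ T → 0 < V →
      4 * T * V ≤ (n : ℝ) ^ 3 * k * es * (er : ℝ) ^ 2 → (∀ t ∈ F, IsT t ∧ t.1 = (n, k) ∧ InC er es x t ∧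
        |(t.2.1 : ℝ)| + er * es ≤ er * es * (L : ℝ) ∧ |(t.2.2.1 : ℝ)| + er * es ≤ er * es * (L' : ℝ) ∧
        z₀ < t.2.2.2 ∧ (t.2.2.2 : ℝ) ≤ z₀ + V) →
      (F.card : ℝ) ≤ C / T * (L * L' + √(L * L' : ℝ) * ∑ h ∈ Ico 1 T,
        √((nearPts L L' ((h * es : ℕ) * α / ((n : ℝ) ^ 3 * k)) ((h * es : ℕ) * β / ((n : ℝ) ^ 3 * k))
          ((h * es : ℕ) * γ / ((n : ℝ) ^ 3 * k))).card : ℝ))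

/-! ## Sums over pairs and frequencies -/

/-- the part of `h` composed of primes `> y` not dividing `m` -/
def dl (y h m : ℕ) : ℕ := ∏ p ∈ h.primeFactors.filter (fun p => y < p ∧ ¬ p ∣ m), p ^ h.factorization p

/-- `n / k` modulo `δ` -/
def rt (δ n k : ℕ) : ℕ := if δ = 0 then 0 else ((n : ZMod δ) * (k : ZMod δ)⁻¹).val

/-- the product of the primes `> y` of `e` -/
def rr (y e : ℕ) : ℕ := ∏ p ∈ e.primeFactors.filter (fun p => y < p), p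

/-- **WDL** (short).  Properties of `dl`, `rt`, `rr`. -/
def WDL_stmt : Prop :=
  (∀ y h m : ℕ, 1 ≤ h → 1 ≤ dl y h m ∧ dl y h m ∣ h ∧ Nat.Coprime (dl y h m) m ∧ Rgh y (dl y h m) ∧
    rr y (h / dl y h m) ∣ m) ∧
  (∀ δ n k : ℕ, 1 ≤ δ → Nat.Coprime δ k → (δ : ℤ) ∣ (rt δ n k : ℤ) * k - n ∧ rt δ n k < δ ∧ (Nat.Coprime δ n → Nat.Coprime (rt δ n k) δ)) ∧
  (∀ y e : ℕ, 1 ≤ e → Squarefree (rr y e) ∧ rr y e ∣ e ∧ Rgh y (rr y e))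

open Classical in
/-- **WMU** (short-medium; from `family`, helper96/FT/P4).  Pairs in one class modulo `δ`.
Proof. For every `a ∣ Y` the pairs with `gcd(n, Y) = a` (then `Y/a ∣ k`): for two of them `a (Y/a)` and `δ` divide `n k' - n' k ≠ 0` (different coprime pairs), and `gcd(δ, Y) = 1`: `family` with `W = δ Y`.  `2^ω(Y)` divisors `a`. -/
def WMU_stmt : Prop :=
  ∀ (N K Y δ r : ℕ), 1 ≤ N → 1 ≤ K → Squarefree Y → 1 ≤ δ → Nat.Coprime δ Y →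
    (((pairs N K Y).filter (fun p => Nat.Coprime δ (p.1 * p.2) ∧ (δ : ℤ) ∣ (r : ℤ) * p.2 - p.1)).card : ℝ) ≤
      2 ^ Y.primeFactors.card * (1 + 2 * N * K / (δ * Y))

/-- **WEP** (medium).  Euler products.
Proof. (1) `≤ ∏_p (1 + w_p ∑_{a ≥ 1} p^(-a/5) ..)`: `2^ω(lcm(y, rr e)) ≤ 2^ω(y) 2^ω(rr e)`, `1/lcm(y, rr e) = gcd(y, rr e)/(y rr e)`; `e = ∏ p^a` over primes `p < T`: the factor at `p ≤ y₀` is `∑_a p^(-a/5) ≤ C`, at `p > y₀`, `p ∣ y`: `1 + 2 ∑_{a≥1} p^(-a/5) ≤ C`, at `p > y₀`, `p ∤ y`: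
`1 + (2/p) ∑_{a≥1} p^(-a/5) ≤ 1 + C p^(-6/5)`: product `≤ C^(ω(y)+1)/y · 2^ω(y)`.  (2) similarly, all factors `1 + 2 ∑_{a ≥ 1} p^(-6a/5) ≤ 1 + C p^(-6/5)`, times `2^ω(y)`. -/
def WEP_stmt : Prop :=
  ∀ y₀ : ℕ, ∃ C : ℝ, 1 ≤ C ∧ ∀ (y T : ℕ), Squarefree y →
    ∑ e ∈ Ico 1 T, (2 : ℝ) ^ (Nat.lcm y (rr y₀ e)).primeFactors.card / (Nat.lcm y (rr y₀ e)) * (e : ℝ) ^ (-(1 / 5 : ℝ)) ≤
      C ^ (y.primeFactors.card + 1) / y ∧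
    ∑ e ∈ Ico 1 T, (2 : ℝ) ^ (Nat.lcm y (rr y₀ e)).primeFactors.card * (e : ℝ) ^ (-(6 / 5 : ℝ)) ≤ C ^ (y.primeFactors.card + 1)

open Classical in
/-- **WSM** (medium-long; from WDL, WMU, WEP; the hypothesis is LFS for the fixed constants).
Proof. For `(p, h)`: `δ = dl y₀ h (n k)`, `e = h/δ < T`, `rr y₀ e ∣ n k` (WDL), `r = rt δ n k`, `(δ, r) ∈ PR y₀ u`, `u = log₂ δ`, `2^u ≤ δ ≤ T/e`, and `p ∈ pairs N K Y'`, `Y' = lcm(y, rr y₀ e)` (squarefree, coprime to `δ`), `r k ≡ n (δ)`.  So the sum is at most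
`∑_e ∑_{u : 2^u ≤ T/e} 2^(-3u/4) ∑_{(δ,r) ∈ PR y₀ u} (√(2^u)/lamb b δ r)^(3/2) · 2^ω(Y') (1 + 2NK/(2^u Y'))` (WMU) `≤ ∑_e ∑_u 2^ω(Y') C (1 + b^B 2^(-τu)) (2^(5u/4) + 2 N K 2^(u/4)/Y')`.  Geometric sums in `u` (exponents `5/4 - τ`, `1/4 - τ ≥ 0.24`):
`≤ C ∑_e 2^ω(Y') [(T/e)^(5/4) + NK (T/e)^(1/4)/Y' + b^B ((T/e)^(5/4-τ) + NK (T/e)^(1/4-τ)/Y')]`, `(T/e)^(5/4-τ) ≤ T^(5/4-τ) e^(-6/5)`, `(T/e)^(1/4-τ) ≤ T^(1/4-τ) e^(-1/5)`; WEP. -/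
def WSM_stmt : Prop :=
  ∀ (y₀ B : ℕ) (C₀ τ : ℝ), 5 ≤ y₀ → 1 ≤ C₀ → 0 < τ → τ ≤ 1 / 100 →
    (∀ b : ℝ, 1 ≤ b → ∀ u : ℕ, ∑ p ∈ PR y₀ u, (√(2 ^ u) / lamb b p.1 p.2) ^ (3 / 2 : ℝ) ≤
      C₀ * (1 + b ^ B * (2 : ℝ) ^ (-(τ * u))) * 4 ^ u) →
    ∃ C : ℝ, 1 ≤ C ∧ ∀ (b : ℝ) (N K y T : ℕ), 1 ≤ b → 1 ≤ N → 1 ≤ K → 1 ≤ T → Squarefree y →
      ∑ p ∈ pairs N K y, ∑ h ∈ Ico 1 T, (1 / lamb b (dl y₀ h (p.1 * p.2)) (rt (dl y₀ h (p.1 * p.2)) p.1 p.2)) ^ (3 / 2 : ℝ) ≤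
        C ^ (y.primeFactors.card + 1) * ((T : ℝ) ^ (5 / 4 : ℝ) + N * K * (T : ℝ) ^ (1 / 4 : ℝ) / y) *
          (1 + b ^ B * (T : ℝ) ^ (-τ))

/-- the sizes of one block; `ρ` bounds the dual vectors -/
structure WB (C₁ : ℝ) (N K L L' T er es y : ℕ) (b ρ : ℝ) : Prop where
  N1 : 1 ≤ N
  K1 : 1 ≤ K
  L1 : 1 ≤ L
  L1' : 1 ≤ L'
  T1 : 1 ≤ T
  b1 : 1 ≤ b
  ρ0 : 0 ≤ ρ
  ρ2 : ρ ^ 2 ≤ C₁ * es * T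
  s1 : 32 * ((T : ℝ) * es) * L' / (N : ℝ) ^ 3 + (K : ℝ) ^ 3 / L ≤ ρ * b ^ 5
  s2 : 32 * ((T : ℝ) * es) * L / (N : ℝ) ^ 3 + 2 * (N : ℝ) ^ 2 * K / L + (K : ℝ) ^ 3 / L' ≤ ρ * b
  s3 : 4 * (N : ℝ) / K * (32 * ((T : ℝ) * es) * L / (N : ℝ) ^ 3 + 2 * (N : ℝ) ^ 2 * K / L + (K : ℝ) ^ 3 / L') +
    5 * (N : ℝ) ^ 3 / L ≤ ρ / b
  s4 : (N : ℝ) ^ 3 / L' ≤ ρ / b ^ 5
  T2 : (T : ℝ) * y ≤ C₁ * (N * K)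

open Classical in
/-- **WPR** (medium; from WPC, WNR, WSM, WDL, `pairs_card`).  One block of pairs.
Proof. WPC for every pair `p = (n,k) ∈ W` and class; `N < 2n`, `K < 2k`, `h < T`: the size hypotheses of WNR for the frequency `h es` (`M = L`, `G = L'`) follow from `WB` (`n³ ≥ N³/8`, `2n/k ≤ 4N/K`); `δ = dl y₀ h (n k)`: `δ ∣ h es`, coprime to `5 n k` (`y₀ ≥ 5`), `r = rt δ n k`.
`√near ≤ C (1 + (ρ/lamb)^(3/2))`.  `∑_{p ∈ W} ∑_{h<T} 1 ≤ T 2^ω(y) N K/y` (`pairs_card`); `∑ (ρ/lamb)^(3/2) = ρ^(3/2) · WSM`, `ρ^(3/2) ≤ C (es T)^(3/4)`: `≤ C^(ω+1) es^(3/4) (T² + N K T/y) (1 + b^B T^(-τ)) ≤ C^(ω+1) es^(3/4) T N K/y`. -/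
def WPR_stmt : Prop :=
  LFS_stmt → ∃ (B : ℕ) (τ : ℝ), 0 < τ ∧ ∀ C₁ : ℝ, 1 ≤ C₁ → ∃ C : ℝ, 1 ≤ C ∧
    ∀ (N K L L' T er es y : ℕ) (b ρ z₀ V s : ℝ), WB C₁ N K L L' T er es y b ρ → b ^ B ≤ (T : ℝ) ^ τ → 1 ≤ er → 1 ≤ es →
    Nat.Coprime er es → Squarefree y → y ∣ es → 0 < V → 32 * T * V ≤ (N : ℝ) ^ 3 * K * es * (er : ℝ) ^ 2 / 8 →
    ∀ S : ℕ × ℕ → Finset Cls, (∀ p, ((S p).card : ℝ) ≤ s) → ∀ F : Finset Tpl,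
    (∀ t ∈ F, IsT t ∧ t.1 ∈ pairs N K y ∧ Nat.Coprime (t.1.1 * t.1.2) er ∧ (∃ x ∈ S t.1, InC er es x t) ∧
      |(t.2.1 : ℝ)| + er * es ≤ er * es * (L : ℝ) ∧ |(t.2.2.1 : ℝ)| + er * es ≤ er * es * (L' : ℝ) ∧
      z₀ < t.2.2.2 ∧ (t.2.2.2 : ℝ) ≤ z₀ + V) →
    (F.card : ℝ) ≤ C ^ (y.primeFactors.card + 1) * s * (N * K / y) *
      (L * L' / T + √(L * L' : ℝ) * (es : ℝ) ^ (3 / 4 : ℝ))

/-- **WNU** (medium, numerical).  The sizes in the central set at the scale `N d²`.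
Proof. `η = τ/(100 (B+1))` small.  `b = (Y₂/Y)^(1/4)`, `sN = Y √Y₂/(√N d)` etc.; `H₀ = (Y Y₂)^(5/2)/(N d²)² ` satisfies `sN³ sK = Y H₀`, `√H₀ b⁵ = sK³/sM`, `√H₀ b = sN² sK/sM`, `√H₀/b = sN³/sM`, `√H₀/b⁵ = sN³/sG`, `H₀ sG/sN³ = √H₀ b⁵`, `H₀ sM/sN³ = √H₀ b`, `sK³/sG = √H₀ b`, `(sN/sK) b = 1/b`.
`E = er es`; `L = ⌈(6/κ) sM/E⌉ + 1`, `L' = ⌈8 sG/E⌉ + 1` (`sM/E, sG/E ≥ 1`), `T = ⌊N₁³ K₁ es er²/(256 V)⌋` with `V = Y`, `z₀ = 0`: `T ≍ H₀ er² es ≥ N^(1/4)`; `E² H₀ = es H₀ er² es ≍ es T`; `ρ = C E √H₀`.  `N₁K₁ ≍ sN sK = H₀ N d²/(Y Y₂) ≥ H₀ d²/A`, so `T y ≤ C H₀ er² es y ≤ C H₀ d² ≤ C A N₁K₁`.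
`b^B ≤ N^(ηB/4) ≤ T^τ`.  Finally `N₁K₁ L L'/(T) ≤ C sN sK sM sG/(E² H₀ er² es) = C Y Y₂/(er⁴ es³)` and `N₁K₁ √(LL') ≤ C sN sK √(sM sG)/E = C (Y Y₂) (Y Y₂/(N d²))^(3/2)/(er es)`. -/
def WNU_stmt : Prop :=
  ∀ (B : ℕ) (τ : ℝ), 0 < τ → ∃ η : ℝ, 0 < η ∧ ∀ κ A : ℝ, 0 < κ → κ ≤ 1 → 1 ≤ A → ∃ C₁ N₀ : ℝ, 1 ≤ C₁ ∧ ∀ N Y Y₂ : ℝ, N₀ ≤ N →
    Y ≤ Y₂ → Y₂ ≤ N ^ η * Y → Y * Y₂ ≤ A * N → N ^ (1 - η) ≤ Y * Y₂ → ∀ d er es y : ℕ, 1 ≤ d → (d : ℝ) ≤ N ^ η → 1 ≤ er → 1 ≤ es →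
    1 ≤ y → er ^ 2 * es * y ≤ d ^ 2 → ∀ N₁ K₁ : ℕ, Blk (κ ^ 2) 6 (N * (d : ℝ) ^ 2) Y Y₂ N₁ K₁ →
    1 ≤ κ ^ 2 * sN (N * (d : ℝ) ^ 2) Y Y₂ ∧ 1 ≤ κ ^ 2 * sK (N * (d : ℝ) ^ 2) Y Y₂ ∧ 1 ≤ Y ∧ 1 ≤ Y₂ ∧ 1 ≤ N ∧
    ∃ (L L' T : ℕ) (b ρ : ℝ), WB C₁ N₁ K₁ L L' T er es y b ρ ∧ b ^ B ≤ (T : ℝ) ^ τ ∧
      32 * T * Y ≤ (N₁ : ℝ) ^ 3 * K₁ * es * (er : ℝ) ^ 2 / 8 ∧
      6 / κ * sM (N * (d : ℝ) ^ 2) Y Y₂ + er * es ≤ er * es * (L : ℝ) ∧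
      8 * sG (N * (d : ℝ) ^ 2) Y Y₂ + er * es ≤ er * es * (L' : ℝ) ∧
      (N₁ : ℝ) * K₁ * (L * L' / T) ≤ C₁ * (Y * Y₂ / ((er : ℝ) ^ 4 * (es : ℝ) ^ 3)) ∧
      (N₁ : ℝ) * K₁ * √(L * L' : ℝ) ≤ C₁ * ((Y * Y₂) * (Y * Y₂ / (N * (d : ℝ) ^ 2)) ^ (3 / 2 : ℝ) / (er * es))

/-- **WGF** (short-medium; from WPR, WNU, CZ, CBR of T5).
Proof. Take `κ ≤ 1` (smaller `κ` gives a weaker hypothesis `Cen`; `Cen` is antitone in `κ`).  CBR reduces to blocks; CZ gives the sizes of `m, g, Z`; WPR with `z₀ = 0`, `V = Y`; `es^(3/4)/(er es) = 1/(er es^(1/4))`. -/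
def WGF_stmt : Prop := LFS_stmt → WG_stmt

end Pool.Agent.T6
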