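import Pool.Agent.helper82.T6.SpecW
import Pool.Agent.helper43.T5.RE1
import Pool.Agent.helper71.T5.RE2
import Pool.Agent.helper11.T5.TR

set_option autoImplicit false

namespace Pool.Agent.T6

open Finset Pool.Agent.helper3.FT Pool.Agent.T5

theorem WCLm_split (es n : ℕ) (hes : 1 ≤ es) : e2 es n * e1 es n = es := by
  unfold e1 e2
  rw [mul_comm, ← Nat.prod_factorization_pow_eq_self (n := es) (by omega)]
  conv_rhs => rw [Finsupp.prod, Nat.support_factorization]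
  rw [Nat.prod_factorization_pow_eq_self (n := es) (by omega)]
  rw [mul_comm]
  exact Finset.prod_filter_mul_prod_filter_not es.primeFactors (fun p => p ∣ n)
    (fun p => p ^ es.factorization p)

theorem WCLm_e1n (es n : ℕ) : Nat.Coprime (e1 es n) n := by
  unfold e1
  refine Nat.Coprime.prod_left ?_
  intro p hp
  rw [mem_filter] at hp
  exact Nat.Coprime.pow_left _ ((Nat.Prime.coprime_iff_not_dvd (Nat.prime_of_mem_primeFactors hp.1)).2 hp.2)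

theorem WCLm_e2 (es n j : ℕ) (h : Nat.Coprime n j) : Nat.Coprime (e2 es n) j := by
  unfold e2
  refine Nat.Coprime.prod_left ?_
  intro p hp
  rw [mem_filter] at hp
  exact Nat.Coprime.pow_left _ (Nat.Coprime.coprime_dvd_left hp.2 h)

theorem WCLm : WCL_stmt := by
  intro n k er es hn hk her hes hnk hrs hnkr
  obtain ⟨r, hr⟩ : ∃ r : ℕ, r = e2 es n := ⟨_, rfl⟩
  obtain ⟨s, hs⟩ : ∃ s : ℕ, s = e1 es n := ⟨_, rfl⟩
  have hrs1 : r * s = es := by rw [hr, hs]; exact WCLm_split es n hes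
  have hsn : Nat.Coprime n s := by rw [hs]; exact (WCLm_e1n es n).symm
  have hrk : Nat.Coprime r k := by rw [hr]; exact WCLm_e2 es n k hnk
  have hrs2 : Nat.Coprime r s := by rw [hr]; exact WCLm_e2 es n s hsn
  have hcop : Nat.Coprime (n * r) (k * s) :=
    Nat.Coprime.mul_left (Nat.Coprime.mul_right hnk hsn) (Nat.Coprime.mul_right hrk hrs2)
  have hcop' : IsCoprime ((n : ℤ) * r) ((k : ℤ) * s) := by
    have h := Nat.isCoprime_iff_coprime.2 hcop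
    push_cast at h
    exact h
  obtain ⟨α, β, γ, hres⟩ := RE1 n k 1 1 r s hcop' isCoprime_one_left isCoprime_one_left
  refine ⟨α, β, γ, ?_, ?_⟩
  · obtain ⟨a1, a2, a3, a4, a5, a6⟩ := hres
    have h1 : (n : ℤ) ^ 3 * 1 ∣ (n : ℤ) ^ 3 * r := mul_dvd_mul_left _ (one_dvd _)
    have h2 : (k : ℤ) * 1 ∣ (k : ℤ) * s := mul_dvd_mul_left _ (one_dvd _)
    exact ⟨h1.trans a1, h1.trans a2, h1.trans a3, h2.trans a4, h2.trans a5, h2.trans a6⟩
  intro x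
  obtain ⟨c₀, hc₀⟩ := RE2 n k 1 1 r s α β γ hcop' isCoprime_one_left isCoprime_one_left hres x.c x.c'
  obtain ⟨E, hE⟩ : ∃ E : ℤ, E = (er : ℤ) * es := ⟨_, rfl⟩
  have hE0 : 0 < E := by rw [hE]; positivity
  have hes' : (es : ℤ) = r * s := by rw [← hrs1]; push_cast; ring
  obtain ⟨Q, hQ⟩ : ∃ Q : ℤ, Q = ((n : ℤ) ^ 3 * r) * (k * s) := ⟨_, rfl⟩
  have hQe : Q = (n : ℤ) ^ 3 * k * es := by rw [hQ, hes']; ring
  have hcQ : IsCoprime ((er : ℤ) ^ 2) Q := by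
    have h1 : Nat.Coprime er (n * k) := hnkr.symm
    have h2 : Nat.Coprime er n := Nat.Coprime.coprime_mul_right_right h1
    have h3 : Nat.Coprime er k := Nat.Coprime.coprime_mul_left_right h1
    have h4 : IsCoprime (er : ℤ) (n : ℤ) := Nat.isCoprime_iff_coprime.2 h2
    have h5 : IsCoprime (er : ℤ) (k : ℤ) := Nat.isCoprime_iff_coprime.2 h3
    have h6 : IsCoprime (er : ℤ) (es : ℤ) := Nat.isCoprime_iff_coprime.2 hrs
    rw [hQe]
    exact ((h4.pow_right.mul_right h5).mul_right h6).pow_left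
  obtain ⟨u, v, huv⟩ := hcQ
  obtain ⟨m₀, hm₀⟩ : ∃ m₀ : ℤ, m₀ = x.m % E := ⟨_, rfl⟩
  obtain ⟨g₀, hg₀⟩ : ∃ g₀ : ℤ, g₀ = x.g % E := ⟨_, rfl⟩
  have hnR : (n : ℝ) ≠ 0 := by exact_mod_cast (by omega : n ≠ 0)
  have hkR : (k : ℝ) ≠ 0 := by exact_mod_cast (by omega : k ≠ 0)
  have heR : (er : ℝ) ≠ 0 := by exact_mod_cast (by omega : er ≠ 0)
  have hsR : (es : ℝ) ≠ 0 := by exact_mod_cast (by omega : es ≠ 0)
  refine ⟨m₀, g₀, (u : ℝ) * (er * es) * (2 * α * m₀ + β * g₀) / ((n : ℝ) ^ 3 * k * es) + v * x.v * (er * es) / (er : ℝ) ^ 2,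
    (u : ℝ) * (er * es) * (β * m₀ + 2 * γ * g₀) / ((n : ℝ) ^ 3 * k * es) + v * x.w * (er * es) / (er : ℝ) ^ 2,
    (u : ℝ) * (α * m₀ ^ 2 + β * m₀ * g₀ + γ * g₀ ^ 2 + c₀) / ((n : ℝ) ^ 3 * k * es) +
      v * (x.u + x.v * m₀ + x.w * g₀) / (er : ℝ) ^ 2, ?_, ?_, ?_, ?_, ?_⟩
  · rw [hm₀]; exact Int.emod_nonneg _ hE0.ne'
  · rw [← hE, hm₀]; exact Int.emod_lt_of_pos _ hE0
  · rw [hg₀]; exact Int.emod_nonneg _ hE0.ne'
  · rw [← hE, hg₀]; exact Int.emod_lt_of_pos _ hE0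
  intro t ht ht1 hC
  obtain ⟨_, hT2, _, hT4, -⟩ := TR t ht
  obtain ⟨C1, C2, C3, C4, C5⟩ := hC
  have ht1a : t.1.1 = n := by rw [ht1]
  have ht1b : t.1.2 = k := by rw [ht1]
  rw [ht1a, ht1b] at hT2 hT4
  rw [ht1a] at C3 C4
  obtain ⟨m, hm⟩ : ∃ m : ℤ, m = t.2.1 := ⟨_, rfl⟩
  obtain ⟨g, hg⟩ : ∃ g : ℤ, g = t.2.2.1 := ⟨_, rfl⟩
  obtain ⟨z, hz⟩ : ∃ z : ℤ, z = t.2.2.2 := ⟨_, rfl⟩
  rw [← hm] at C1 C5 hT2 hT4
  rw [← hg] at C2 C5 hT4
  rw [← hz] at C5 hT2 hT4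
  push_cast at C1 C2
  rw [← hE] at C1 C2
  have hmE : E ∣ m - m₀ := by
    have h1 : E ∣ x.m - m₀ := by rw [hm₀]; exact Int.dvd_self_sub_emod
    have h2 : m - m₀ = (m - x.m) + (x.m - m₀) := by ring
    rw [h2]; exact dvd_add C1 h1
  have hgE : E ∣ g - g₀ := by
    have h1 : E ∣ x.g - g₀ := by rw [hg₀]; exact Int.dvd_self_sub_emod
    have h2 : g - g₀ = (g - x.g) + (x.g - g₀) := by ring
    rw [h2]; exact dvd_add C2 h1
  obtain ⟨m', hm'⟩ := hmE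
  obtain ⟨g', hg'⟩ := hgE
  have hm2 : m = m₀ + E * m' := by linarith
  have hg2 : g = g₀ + E * g' := by linarith
  -- the congruence modulo `Q`
  have hQd : Q ∣ z - (α * m ^ 2 + β * m * g + γ * g ^ 2 + c₀) := by
    rw [hQ]
    refine (hc₀ m g z).2 ⟨?_, ?_⟩
    · rw [← hr] at C4
      obtain ⟨w, hw⟩ := C4
      refine ⟨-w, ?_⟩
      linear_combination hT4 - (n : ℤ) ^ 3 * hw
    · rw [← hs] at C3
      obtain ⟨w, hw⟩ := C3
      refine ⟨w, ?_⟩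
      linear_combination (-1 : ℤ) * hT2 + (k : ℤ) * hw
  obtain ⟨a, ha⟩ := hQd
  obtain ⟨b, hb⟩ := C5
  refine ⟨m', g', ?_, ?_, ?_⟩
  · rw [← hm, hm2, hE]
  · rw [← hg, hg2, hE]
  refine ⟨u * a + v * b - v * es ^ 2 * (α * m' ^ 2 + β * m' * g' + γ * g' ^ 2), ?_⟩
  rw [← hz]
  have hzz : z = u * (er : ℤ) ^ 2 * (α * m ^ 2 + β * m * g + γ * g ^ 2 + c₀) + v * Q * (x.u + x.v * m + x.w * g) +
      Q * (er : ℤ) ^ 2 * (u * a + v * b) := by
    linear_combination (-z) * huv + u * (er : ℤ) ^ 2 * ha + v * Q * hb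
  have hzR : (z : ℝ) = u * (er : ℝ) ^ 2 * (α * m ^ 2 + β * m * g + γ * g ^ 2 + c₀) + v * ((n : ℝ) ^ 3 * k * es) * (x.u + x.v * m + x.w * g) +
      ((n : ℝ) ^ 3 * k * es) * (er : ℝ) ^ 2 * (u * a + v * b) := by
    have h := congrArg (fun i : ℤ => (i : ℝ)) hzz
    rw [h, hQe]
    push_cast
    ring
  have hmR : (m : ℝ) = m₀ + (er * es) * m' := by
    rw [hm2, hE]; push_cast; ring
  have hgR : (g : ℝ) = g₀ + (er * es) * g' := by
    rw [hg2, hE]; push_cast; ring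
  have huvR : (u : ℝ) * (er : ℝ) ^ 2 + v * ((n : ℝ) ^ 3 * k * es) = 1 := by
    have h := congrArg (fun i : ℤ => (i : ℝ)) huv
    rw [hQe] at h
    push_cast at h
    linarith
  have hform : (es : ℝ) / ((n : ℝ) ^ 3 * k) * (α * m' ^ 2 + β * m' * g' + γ * g' ^ 2) =
      (es : ℝ) / ((n : ℝ) ^ 3 * k) * (α * m' ^ 2 + β * m' * g' + γ * g' ^ 2) *
        ((u : ℝ) * (er : ℝ) ^ 2 + v * ((n : ℝ) ^ 3 * k * es)) := by
    rw [huvR, mul_one]
  rw [hform, hzR, hmR, hgR]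
  push_cast
  field_simp
  ring

end Pool.Agent.T6
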