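import Pool.Agent.helper82.T6.AllL
import Pool.Agent.helper8.T6.AllC
import Pool.Agent.helper9.T6.WDM
import Pool.Agent.helper22.T6.WNR
import Pool.Agent.helper87.T6.WWY
import Pool.Agent.helper35.T6.WFJ
import Pool.Agent.helper82.T6.WCLm
import Pool.Agent.helper72.T6.WPC
import Pool.Agent.helper51.T6.WDL
import Pool.Agent.helper39.T6.WMU
import Pool.Agent.helper10.T6.WEP
import Pool.Agent.helper98.T6.WSM
import Pool.Agent.helper18.T6.WPR
import Pool.Agent.helper78.T6.WNU
import Pool.Agent.helper13.T6.WGF
import Pool.Agent.helper71.T6.HGEO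
import Pool.Agent.helper55.T6.HLC
import Pool.Agent.helper55.T6.HGC
import Pool.Agent.helper16.T6.HROW
import Pool.Agent.helper74.T6.HRAT
import Pool.Agent.helper34.T6.HBAD
import Pool.Agent.helper72.T6.HCNT
import Pool.Agent.helper92.T6.HINJ
import Pool.Agent.helper68.T6.HMN
import Pool.Agent.helper6.T6.HMU
import Pool.Agent.helper67.T6.HCL
import Pool.Agent.helper42.T6.HSUM
import Pool.Agent.helper40.T6.HFIN
import Pool.Agent.helper95.T5.Final
import Pool.Agent.helper23.T5.SC1

set_option autoImplicit false

/-!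
# T6 (MP_16912e_nt): everything together

`allUB`: the sum of `#Cl(D)[5]` over the fundamental discriminants `-N < D < 0` is at most `C N`.
-/

namespace Pool.Agent.T6

open Finset Pool.Agent.T5

theorem allWNR : WNR_stmt := WNR WDM allGP allGR allN2 allN4

theorem allWPC : WPC_stmt := WPC WCLm WFJ WWY

theorem allWSM : WSM_stmt := WSM WDL WMU WEP

theorem allWPR : WPR_stmt := WPR allWPC allWNR allWSM WDL

/-- block W -/
theorem allWG : WG_stmt := WGF allWPR WNU allLFS

/-- block C -/
theorem allTD : TD_stmt := TD_of_WG allWG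

theorem allHCNT : HCNT_stmt := HCNT (HROW HGEO) HRAT (HBAD HGC HLC)

theorem allHMN : HMN_stmt := HMN allHCNT HINJ allTD

/-- block H -/
theorem allHSUM : HSUM_stmt := HSUM allHMN (HCL HMU) finU SC1

/-- **the average of the 5-torsion of imaginary quadratic fields is bounded** -/
theorem allUB : UB_stmt := HFIN allHSUM

end Pool.Agent.T6
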