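import Pool.Agent.helper95.T5.Defs
import Pool.Agent.helper95.T5.SpecN

set_option autoImplicit false

/-!
# T6: the average of the 5-torsion over imaginary quadratic fields is bounded

Definitions and interface statements.  Page: /team-store/T6_LF_helper82.md
Vectors `(A, A', B, X)` as in FT (`= (c, f, -j, b)` on the page); `b ^ 4 = Y₂ / Y`.
-/

namespace Pool.Agent.T6

open Finset Pool.Agent.helper3.FT

/-- vectors `(A, A', B, X)` -/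
abbrev V4 : Type := ℤ × ℤ × ℤ × ℤ

/-- the lattice `Γ_{d,r}` -/
def InG (d r : ℕ) (v : V4) : Prop :=
  (d : ℤ) ∣ F1 v.1 v.2.1 v.2.2.1 r 1 ∧ (d : ℤ) ∣ F2 v.2.1 v.2.2.1 v.2.2.2 r 1

/-- the norm whose unit ball is the box with sides `b⁵, b, b⁻¹, b⁻⁵` -/
noncomputable def nrm (b : ℝ) (v : V4) : ℝ :=
  max (max (|(v.1 : ℝ)| / b ^ 5) (|(v.2.1 : ℝ)| / b)) (max (|(v.2.2.1 : ℝ)| * b) (|(v.2.2.2 : ℝ)| * b ^ 5))

/-- the first minimum of `Γ_{d,r}` -/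
noncomputable def lamb (b : ℝ) (d r : ℕ) : ℝ := sInf {x : ℝ | ∃ v : V4, v ≠ 0 ∧ InG d r v ∧ x = nrm b v}

/-- the resultant -/
def RV (v : V4) : ℤ := Rf v.1 v.2.1 v.2.2.1 v.2.2.2

/-- all primes of `d` are larger than `y` -/
def Rgh (y d : ℕ) : Prop := ∀ p : ℕ, p.Prime → p ∣ d → y < p

open Classical in
/-- the pairs `(d, r)` of level `u`: `2^u ≤ d < 2^(u+1)`, `r` a unit modulo `d` -/
noncomputable def PR (y u : ℕ) : Finset (ℕ × ℕ) :=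
  (Ico (2 ^ u) (2 ^ (u + 1)) ×ˢ range (2 ^ (u + 1))).filter
    (fun p => p.2 < p.1 ∧ Nat.Coprime p.2 p.1 ∧ Rgh y p.1)

/-- some shortest vector has nonzero resultant -/
def Gd (b : ℝ) (d r : ℕ) : Prop := ∃ v : V4, InG d r v ∧ nrm b v = lamb b d r ∧ RV v ≠ 0

open Classical in
/-- the good pairs of level `u` with `x ≥ s²` -/
noncomputable def SU (b : ℝ) (y u : ℕ) (s : ℝ) : Finset (ℕ × ℕ) :=
  (PR y u).filter (fun p => Gd b p.1 p.2 ∧ lamb b p.1 p.2 * s ^ 2 ≤ √(2 ^ u))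

/-! ## Interface: LFS (block L, helper82) -/

/-- LFS: the log-free bound on average -/
def LFS_stmt : Prop :=
  ∃ (y B : ℕ) (C τ : ℝ), 5 ≤ y ∧ 1 ≤ C ∧ 0 < τ ∧ τ ≤ 1 / 100 ∧ ∀ b : ℝ, 1 ≤ b → ∀ u : ℕ,
    ∑ p ∈ PR y u, (√(2 ^ u) / lamb b p.1 p.2) ^ (3 / 2 : ℝ) ≤
      C * (1 + b ^ B * (2 : ℝ) ^ (-(τ * u))) * 4 ^ u

end Pool.Agent.T6
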