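import Pool.Agent.helper82.T6.SpecL

set_option autoImplicit false

/-!
# T6, block L, part 2: the cases of the induction and the assembly of LF and LFS
-/

namespace Pool.Agent.T6

open Finset Pool.Agent.helper3.FT

/-! ## Case I: selection of an isolated prime -/

open Classical in
/-- the pairs treated by selection: primitive, small powerful part -/
noncomputable def SB (b : ℝ) (y u : ℕ) (s : ℝ) : Finset (ℕ × ℕ) :=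
  (SU b y u s).filter (fun p => Pm p.1 (vv b p.1 p.2) ∧ ¬ ((2 : ℝ) ^ ((u : ℝ) / 25) < pw p.1))

open Classical in
/-- case I: the smallest block with an isolated prime is `i` -/
noncomputable def SI (b : ℝ) (y u : ℕ) (s : ℝ) (i : ℕ) : Finset (ℕ × ℕ) :=
  (SB b y u s).filter (fun p => (∃ l : ℕ, IsoP y (vv b p.1 p.2) p.1 l ∧ Nat.log 2 l = i) ∧
    ∀ l : ℕ, IsoP y (vv b p.1 p.2) p.1 l → i ≤ Nat.log 2 l)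

open Classical in
/-- case I, the part `q` of `d` in the blocks `< j0 K i` is given -/
noncomputable def SIq (b : ℝ) (y u : ℕ) (s : ℝ) (K i q : ℕ) : Finset (ℕ × ℕ) :=
  (SI b y u s i).filter (fun p => prt (j0 K i) p.1 = q)

open Classical in
/-- the numbers `H = (d / l) q'` -/
noncomputable def DH (y u i j q q' : ℕ) : Finset ℕ :=
  (range (2 ^ (u + 1) * q')).filter (fun H => Rgh y H ∧ 1 ≤ H ∧ (∃ h : ℕ, H = q * q' * h ∧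
    ∀ p : ℕ, p.Prime → p ∣ h → j ≤ Nat.log 2 p) ∧ 2 ^ u * q' < 2 ^ (i + 1) * H ∧ 2 ^ i * H < 2 ^ (u + 1) * q')

/-- **DA** (medium; from TRN, PAR, P5).
Proof. TRN with `S = SIq`, `Q = QP y j q`, `D q' = DH y u i j q q'`, `j = j0 K i ≤ i`.  `l` = an isolated prime in block `i`; PAR (all isolated primes are in blocks `≥ i ≥ j`) gives `q'` (`prt j d = q`).  `d/l · q' ∈ DH`: `l ∤ q` (block `i ≥ j`),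
`h = d/(l q)`, its primes are in blocks `≥ j`; `2^u ≤ d < 2^(u+1)`, `2^i ≤ l < 2^(i+1)`. -/
def DA_stmt : Prop :=
  ∀ (b : ℝ) (y u K i q : ℕ) (s : ℝ), 1 ≤ b → 32 ≤ y → 1 ≤ s → 1 ≤ K →
    ((SIq b y u s K i q).card : ℝ) ≤ 3 * ∑ q' ∈ QP y (j0 K i) q, ∑ H ∈ DH y u i (j0 K i) q q',
      ∑ r ∈ (range H).filter (fun r => Nat.Coprime r H), NBf b (√(2 ^ u) / s ^ 2) H r i

open Classical in
/-- **DB** (short-medium; from P2).  Main term.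
Proof. `V⁴/H² ≤ 4^u s⁻⁸ 4^(i+1)/(4^u q'²)`; `∑_r 1 ≤ H ≤ 2^(u+1) q'/2^i`; `h ≤ X := 2^(u+1)/(2^i q)` and `X ≥ 2^j` (`q ≤ 2^(i/20)`, `i ≤ 2u/25`, `j ≤ i`): P2 gives `≤ C 2^(u+1)/(2^i q (j+1))` values of `h`. -/
def DB_stmt : Prop :=
  ∃ C : ℝ, 1 ≤ C ∧ ∀ (y u K i q q' : ℕ) (s : ℝ), 1 ≤ s → 1 ≤ K → 1 ≤ i → i ≤ 2 * u / 25 → 1 ≤ q → 1 ≤ q' →
    (q : ℝ) ≤ (2 : ℝ) ^ ((i : ℝ) / 20) →
    ∑ H ∈ DH y u i (j0 K i) q q', ∑ r ∈ (range H).filter (fun r => Nat.Coprime r H),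
      14641 * (√(2 ^ u) / s ^ 2) ^ 4 / (H : ℝ) ^ 2 ≤ C * (4 ^ u / s ^ 8) / (q * q' * (j0 K i + 1))

open Classical in
/-- **DC** (short-medium; from C6, Z9).  Error terms.
Proof. The pairs `(H, r)` are distinct elements of `⋃_{w ≤ w₀} PR y w`, `w₀ = u + 1 - ⌊47 i/50⌋ < u` (`H < 2^(u+1) q'/2^i`, `q' ≤ 2^(3i/50)`; `i ≥ 5` as `2^(i+1) > y`).  Good ones: C6, `(u - w₀)/5 ≥ (47 i/50 - 2)/5`.  Bad ones: Z9. -/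
def DC_stmt : Prop :=
  ∃ C : ℝ, 1 ≤ C ∧ ∀ (b : ℝ) (y u j i q q' : ℕ) (s : ℝ) (Φ : ℕ → ℝ), MR b u s → 5 ≤ y → Pot Φ → IH b y Φ u →
    5 ≤ i → i ≤ 2 * u / 25 → (q' : ℝ) ≤ (2 : ℝ) ^ (3 * (i : ℝ) / 50) → 1 ≤ q' →
    (∑ H ∈ DH y u i j q q', ∑ r ∈ (range H).filter (fun r => Nat.Coprime r H),
      ((if Gd b H r ∧ lamb b H r ≤ √(2 ^ u) / s ^ 2 then 343 * (√(2 ^ u) / s ^ 2 / lamb b H r) ^ 3 else 0) +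
      (if ¬ Gd b H r ∧ lamb b H r ≤ √(2 ^ u) / s ^ 2 then 343 * 8 ^ (i + 1) else 0))) * s ^ 7 ≤
      C * Φ u * 4 ^ u * (2 : ℝ) ^ (-(47 * (i : ℝ) / 250)) + C * 8 ^ i * (2 : ℝ) ^ (158 * (u : ℝ) / 100)

/-- **DD** (medium; from DA, DB, DC, NBF, P5).
Proof. `QP` has at most `2^(3i/50) + 1` elements (they are `≤ q^(6/5) ≤ 2^(3i/50)`). -/
def DD_stmt : Prop :=
  ∃ C : ℝ, 1 ≤ C ∧ ∀ (b : ℝ) (y u K i q : ℕ) (s : ℝ) (Φ : ℕ → ℝ), MR b u s → 32 ≤ y → Pot Φ → IH b y Φ u → 1 ≤ K →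
    5 ≤ i → i ≤ 2 * u / 25 → 1 ≤ q → Rgh y q → (q : ℝ) ≤ (2 : ℝ) ^ ((i : ℝ) / 20) →
    ((SIq b y u s K i q).card : ℝ) * s ^ 7 ≤
      C * (4 ^ u / s) * (∏ J ∈ Sg (j0 K i) q, (4 / J : ℝ)) / (q * (j0 K i + 1)) +
      C * (2 : ℝ) ^ (3 * (i : ℝ) / 50) * (Φ u * 4 ^ u * (2 : ℝ) ^ (-(47 * (i : ℝ) / 250)) +
        8 ^ i * (2 : ℝ) ^ (158 * (u : ℝ) / 100))

/-- **DE** (short-medium; from P1, P2).  Trivial count.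
Proof. `d = l q h`, `l ∈ pb y i`, `h ≤ X = 2^(u+1)/(l q)`, primes of `h` in blocks `≥ j`, `X ≥ 2^j`: P2; `r < d < 2^(u+1)`; `∑ 1/l ≤ 4/i`. -/
def DE_stmt : Prop :=
  ∃ C : ℝ, 1 ≤ C ∧ ∀ (b : ℝ) (y u K i q : ℕ) (s : ℝ), 1 ≤ K → 1 ≤ i → i ≤ 2 * u / 25 → 1 ≤ q →
    (q : ℝ) ≤ (2 : ℝ) ^ ((i : ℝ) / 20) →
    ((SIq b y u s K i q).card : ℝ) ≤ C * 4 ^ u / (q * (j0 K i + 1) * i)

open Classical in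
/-- **DF** (medium; from DD, DE, P4).  Case Ia for one block.
Proof. With `x` = the main term of DD, `e` = its error, `z` = the bound of DE times `s⁷`: `min(x + e, z) ≤ x^(7/8) z^(1/8) + e`; `x^(7/8) z^(1/8) = C 4^u s^(-7/8) s^(7/8) (∏ 4/J)^(7/8) /(q (j+1) i^(1/8))`; sum over the `q` that occur (P4:
`q` divides `d`, so `Rgh y q`), the number of `q` is at most `2^(i/20) + 1`, `3/50 + 1/20 = 11/100`. -/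
def DF_stmt : Prop :=
  ∃ (C : ℝ) (y₁ : ℕ), 1 ≤ C ∧ ∀ (b : ℝ) (y u K i : ℕ) (s : ℝ) (Φ : ℕ → ℝ), MR b u s → y₁ ≤ y → Pot Φ → IH b y Φ u → 1 ≤ K →
    5 ≤ i → i ≤ 2 * u / 25 →
    (((SI b y u s i).filter (fun p => (prt (j0 K i) p.1 : ℝ) ≤ (2 : ℝ) ^ ((i : ℝ) / 20))).card : ℝ) * s ^ 7 ≤
      C * 4 ^ u / ((j0 K i + 1) * (i : ℝ) ^ (1 / 8 : ℝ)) +
      C * (2 : ℝ) ^ (11 * (i : ℝ) / 100) * (Φ u * 4 ^ u * (2 : ℝ) ^ (-(47 * (i : ℝ) / 250)) +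
        8 ^ i * (2 : ℝ) ^ (158 * (u : ℝ) / 100))

open Classical in
/-- **DG** (medium; from TRN, NBF, P6, C6, Z9).  Case Ib for one block.
Proof. TRN with `Q = {1}`, `D 1 = {H : Rgh y H, 2^u < 2^(i+1) H, 2^i H < 2^(u+1), 2^(i/20) < prt j H}` (`prt j (d/l) = prt j d` as `l` is in block `i ≥ j`).  Main term: `14641 V⁴/H² ≤ 14641 · 4^(i+1) s⁻⁸`, `∑_r 1 ≤ H ≤ 2^(u+1-i)`, the number of `H` is at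
most `∑_q 2^(u+1-i)/q` over the values `q = prt j H > 2^(i/20)`: P6 with `B = 2`.  Errors as in DC with `q' = 1`. -/
def DG_stmt : Prop :=
  ∃ K₀ : ℕ, 1 ≤ K₀ ∧ ∀ K : ℕ, K₀ ≤ K → ∃ C : ℝ, 1 ≤ C ∧ ∀ (b : ℝ) (y u i : ℕ) (s : ℝ) (Φ : ℕ → ℝ), MR b u s → 32 ≤ y →
    Pot Φ → IH b y Φ u → 5 ≤ i → i ≤ 2 * u / 25 →
    (((SI b y u s i).filter (fun p => ¬ (prt (j0 K i) p.1 : ℝ) ≤ (2 : ℝ) ^ ((i : ℝ) / 20))).card : ℝ) * s ^ 7 ≤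
      C * 4 ^ u / (i : ℝ) ^ 2 + C * (Φ u * 4 ^ u * (2 : ℝ) ^ (-(47 * (i : ℝ) / 250)) + 8 ^ i * (2 : ℝ) ^ (158 * (u : ℝ) / 100))

/-- **DI** (medium; from DF, DG).  Case I.
Proof. `SI` is empty unless `2^(i+1) > y`.  `1/((j0 K i + 1) i^(1/8)) ≤ K (log₂ i + 1)/i^(9/8)`: convergent; `∑ 1/i²`; `∑_{2^(i+1) > y} 2^((11/100 - 47/250) i) ≤ C y^(-1/20)`; `∑_{i ≤ 2u/25} 2^(11i/100) 8^i 2^(158u/100) ≤ C 2^(3.11 · 0.08 u + 1.58 u) ≤ C 4^u`. -/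
def DI_stmt : Prop :=
  ∃ K₀ : ℕ, 1 ≤ K₀ ∧ ∀ K : ℕ, K₀ ≤ K → ∃ (C : ℝ) (y₁ : ℕ), 1 ≤ C ∧ 5 ≤ y₁ ∧ ∀ (b : ℝ) (y u : ℕ) (s : ℝ) (Φ : ℕ → ℝ), MR b u s →
    y₁ ≤ y → Pot Φ → IH b y Φ u →
    (∑ i ∈ range (2 * u / 25 + 1), ((SI b y u s i).card : ℝ)) * s ^ 7 ≤ (C + C * (y : ℝ) ^ (-(1 / 20 : ℝ)) * Φ u) * 4 ^ u

/-! ## Case II -/

open Classical in
/-- case II: all isolated primes are in blocks `> 2u/25` -/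
noncomputable def SII (b : ℝ) (y u : ℕ) (s : ℝ) : Finset (ℕ × ℕ) :=
  (SB b y u s).filter (fun p => ∀ l : ℕ, IsoP y (vv b p.1 p.2) p.1 l → 2 * u / 25 < Nat.log 2 l)

/-- number of primes attached to `v`, in blocks `≥ j`, not dividing `m` -/
noncomputable def wj (y j m : ℕ) (v : V4) : ℕ := {p : ℕ | PV y v p ∧ ¬ p ∣ m ∧ j ≤ Nat.log 2 p}.ncard

/-- **ML** (medium-long; from NBC, NRV, N3, P7).  The moment.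
Proof. `W` = the set in the definition of `wj`, finite: its primes divide `RV v ≠ 0` (NRV with `d = p`), so `∏_{p ∈ W} p ≤ |RV v| ≤ 3842 · 8^u ≤ 2^(3u+12)`.  Let `k = ⌊#W/60⌋` and `e` = the product of the `k` smallest elements:
`e ≤ 2^((3u+12) k/#W) ≤ 2^((3u+12)/60) ≤ 2^(u/10)` (for `u ≥ 4`; `u < 4` trivially, constants), `4^#W ≤ 4^60 (4^60)^ω(e)`.  So `∑_v 4^wj ≤ 4^60 ∑_e (4^60)^ω(e) #{v ∈ F : every prime of e is in W}` over squarefree `e ≤ 2^(u/10)` coprime to `m` with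
primes in blocks `[j, u]`.  For such `e` the `v` lie in `⋃_{ρ mod e} Γ_{me, (r,ρ)}` (CRT): NBC (`m e b⁵ ≤ 2^(u/5+u/20) ≤ V`): `≤ e · 81 V⁴/(m e)²`.  P7 with `B = 4^60`, `J = u`. -/
def ML_stmt : Prop :=
  ∃ (C : ℝ) (C₁ : ℕ), 1 ≤ C ∧ ∀ (b : ℝ) (u : ℕ) (s : ℝ), MR b u s → ∀ (y m r j : ℕ) (F : Finset V4), 5 ≤ y → 1 ≤ m → Rgh y m →
    (m : ℝ) ≤ (2 : ℝ) ^ ((u : ℝ) / 10) → 1 ≤ j → j ≤ u → (∀ v ∈ F, RV v ≠ 0 ∧ InG m r v ∧ nrm b v ≤ √(2 ^ u) / s ^ 2) →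
    ∑ v ∈ F, (4 : ℝ) ^ wj y j m v ≤ C * ((4 ^ u / s ^ 8) / (m : ℝ) ^ 2) * ((u : ℝ) / j) ^ C₁

/-- **EA** (medium; from ML, VVP, NRT, C3).  Large `s`.
Proof. `(d, r) ∈ SB`, `v = vv`, `m = pw d ≤ 2^(u/25)` (powerful, `> y`-rough), `ρ = r mod m`, `v ∈ Γ_{m,ρ}`.  For given `m, ρ, v`: `d = m d'`, `d'` squarefree, coprime to `m`, its primes are counted in `wj y 1 m v`; `r` modulo `d` has at most `3^ω(d)` values (NRT):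
at most `3^ω(m) ∑_{d'} 3^ω(d') ≤ 3^ω(m) 4^(wj y 1 m v)`.  ML (`j = 1`): `∑_m 3^ω(m) · m · C 4^u s⁻⁸ m⁻² u^C₁ ≤ C 4^u s⁻⁸ u^C₁` (C3, second part; `3^ω/m`).  Take `s ≥ (u+1)^C₁`. -/
def EA_stmt : Prop :=
  ∃ (C : ℝ) (C₁ : ℕ), 1 ≤ C ∧ ∀ (b : ℝ) (y u : ℕ) (s : ℝ), MR b u s → 5 ≤ y → 1 ≤ u → ((u : ℝ) + 1) ^ C₁ ≤ s →
    ((SB b y u s).card : ℝ) * s ^ 7 ≤ C * 4 ^ u

open Classical in
/-- **EB** (short-medium; from P6).  Trivially rare events for small `s`.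
Proof. (1) the number of `(d,r)` with `prt j d = q` is at most `(2^(u+1)/q) 2^(u+1)`; P6 with `i = u`, `B = 7 C₁ + 1` (`2^(u/50) < q`).  (2) at most `∑_{l ≥ 2^j} 4 · 4^u/l² ≤ 8 · 4^u 2^(-j)`, `j = j0 K u`, and `2^(-j) (u+1)^(7C₁)` is bounded. -/
def EB_stmt : Prop :=
  ∀ C₁ : ℕ, ∃ K₀ : ℕ, 1 ≤ K₀ ∧ ∀ K : ℕ, K₀ ≤ K → ∃ C : ℝ, 1 ≤ C ∧ ∀ (y u : ℕ) (s : ℝ), 1 ≤ u → 0 < s → s ≤ ((u : ℝ) + 1) ^ C₁ →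
    (((PR y u).filter (fun p => (2 : ℝ) ^ ((u : ℝ) / 50) < prt (j0 K u) p.1)).card : ℝ) * s ^ 7 ≤ C * 4 ^ u ∧
    (((PR y u).filter (fun p => ∃ l : ℕ, l.Prime ∧ l ^ 2 ∣ p.1 ∧ j0 K u ≤ Nat.log 2 l)).card : ℝ) * s ^ 7 ≤ C * 4 ^ u

open Classical in
/-- **EC** (medium-long; from PAR, P4, P5, VVP, N3, NBC, NRT).  Case (alpha).
Proof. `j₁ = j0 K u ≤ 2u/25` (`K ≥ 13`), `q₁ = prt j₁ d`; PAR with `j = j₁`: `q₁' ∈ QP y j₁ q₁`, `m = q₁ q₁' ≤ 2^(u/50 + 3u/125)`, `v = vv ∈ Γ_{m,ρ}` (`ρ ≡ r (q₁)`, `ρ ≡ r' (q₁')`).  For given `q₁, q₁', ρ, v`: `h = d/q₁` has all its primes in blocks `≥ j₂ = u/100`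
(natural division) and divides `RV v ≠ 0`, `|RV v| ≤ 2^(3u+12)`: the part of `RV v` in these blocks has at most `1000` prime factors (with multiplicity) (`(3u+12)/max(1,u/100)`; for `u < 100` at most `3u + 12`), so at most `2^1000` values of `h`, at most `3^1000`
values of `r mod h` (NRT), `r mod q₁` is `ρ mod q₁`.  NBC (`m b⁵ ≤ V`): `∑_ρ ≤ m · 81 V⁴/m²`.  `∑_{q₁} (1/q₁) ∑_{q₁'} 1/q₁' ≤ ∑ (1/q₁) ∏ 4/J ≤ C` (P5, P4; `4/J ≤ 1`). -/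
def EC_stmt : Prop :=
  ∃ (C : ℝ) (y₁ : ℕ), 1 ≤ C ∧ ∀ K : ℕ, 13 ≤ K → ∀ (b : ℝ) (y u : ℕ) (s : ℝ), MR b u s → y₁ ≤ y → 1 ≤ u →
    (((SII b y u s).filter (fun p => (prt (j0 K u) p.1 : ℝ) ≤ (2 : ℝ) ^ ((u : ℝ) / 50) ∧
      ∀ l : ℕ, l.Prime → l ∣ p.1 → Nat.log 2 l < j0 K u ∨ u / 100 ≤ Nat.log 2 l)).card : ℝ) * s ^ 8 ≤ C * 4 ^ u

open Classical in
/-- **ED** (medium-long; from PAR, P4, P5, P1, VVP, N3, ML, NRT, C0).  Case (beta).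
Proof. If `j₁ = j0 K u = 0` then `u < K (log₂ u + 1)` is bounded: C0 (`PR` has at most `2 · 4^u` elements, `s ≤ 2^(u/400)`).  Let `j₁ ≥ 1`.  `l` = a prime of `d` in a block `J ∈ [j₁, u/100)`; `l² ∤ d`, `l` is not isolated (`u/100 ≤ 2u/25`), so there is `l' ≠ l` in block `J` with
`PV y v l'`.  `q₁, q₁'` as in EC; `m = q₁ q₁' l l' ≤ 2^(u/50 + 3u/125 + u/50 + 2) ≤ 2^(u/10)` (`u ≥ 100` here), `v ∈ Γ_{m,ρ}` (`l, l' ∤ q₁ q₁'`: other blocks).  For given `q₁, q₁', l, l', ρ, v`: `h = d/q₁` is squarefree with primes in blocks `≥ j₁`, all attached to `v`: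
`∑_h 3^ω(h) ≤ 4^(2 + wj y j₁ m v)`.  ML with `j = j₁`: `∑ m · C V⁴ m⁻² (u/j₁)^C₁`; `u/j₁ ≤ 2K (log₂ u + 1)`; `∑ 1/(q₁q₁') ≤ C`; `∑_{l,l'} 1/(l l') ≤ ∑_{J ≥ j₁} 16/J² ≤ 32/j₁ ≤ 64 K (log₂ u + 1)/u`.  The product is bounded. -/
def ED_stmt : Prop :=
  ∃ y₁ : ℕ, ∀ K : ℕ, 13 ≤ K → ∃ C : ℝ, 1 ≤ C ∧ ∀ (b : ℝ) (y u : ℕ) (s : ℝ), MR b u s → y₁ ≤ y → 1 ≤ u →
    (((SII b y u s).filter (fun p => (prt (j0 K u) p.1 : ℝ) ≤ (2 : ℝ) ^ ((u : ℝ) / 50) ∧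
      (∀ l : ℕ, l.Prime → j0 K u ≤ Nat.log 2 l → ¬ l ^ 2 ∣ p.1) ∧
      ∃ l : ℕ, l.Prime ∧ l ∣ p.1 ∧ j0 K u ≤ Nat.log 2 l ∧ Nat.log 2 l < u / 100)).card : ℝ) * s ^ 7 ≤ C * 4 ^ u

/-- **EE** (short-medium; from EB, EC, ED).  Case II. -/
def EE_stmt : Prop :=
  ∀ C₁ : ℕ, ∃ K₀ : ℕ, 1 ≤ K₀ ∧ ∃ y₁ : ℕ, ∀ K : ℕ, K₀ ≤ K → ∃ C : ℝ, 1 ≤ C ∧ ∀ (b : ℝ) (y u : ℕ) (s : ℝ), MR b u s → y₁ ≤ y →
    1 ≤ u → s ≤ ((u : ℝ) + 1) ^ C₁ → ((SII b y u s).card : ℝ) * s ^ 7 ≤ C * 4 ^ u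

/-- **FM** (medium; from C3, C4, DI, EA, EE).  The main range.
Proof. `SU` is covered by: not primitive (C4), `pw` large (C3; `s⁷ ≤ 2^(7u/400)`), and `SB`.  If `s ≥ (u+1)^C₁` (`C₁` of EA): EA.  Otherwise `SB ⊆ ⋃_{i ≤ 2u/25} SI ∪ SII`: DI, EE with a common `K`.  (`u = 0`: constant.) -/
def FM_stmt : Prop :=
  ∃ (C : ℝ) (y₁ : ℕ), 1 ≤ C ∧ 5 ≤ y₁ ∧ ∀ (b : ℝ) (y u : ℕ) (s : ℝ) (Φ : ℕ → ℝ), MR b u s → y₁ ≤ y → Pot Φ → IH b y Φ u →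
    ((SU b y u s).card : ℝ) * s ^ 7 ≤ (C + C * (y : ℝ) ^ (-(1 / 20 : ℝ)) * Φ u) * 4 ^ u

/-- LF: the log-free tail bound -/
def LF_stmt : Prop :=
  ∃ (y B : ℕ) (A D τ : ℝ), 5 ≤ y ∧ 2 ≤ A ∧ 0 ≤ D ∧ 0 < τ ∧ τ ≤ 1 / 100 ∧ ∀ b : ℝ, 1 ≤ b → ∀ u : ℕ, ∀ s : ℝ, 0 < s →
    ((SU b y u s).card : ℝ) * s ^ 7 ≤ (A + D * (b ^ B * (2 : ℝ) ^ (-(τ * u)))) * 4 ^ u

/-- **FL** (medium; from FM, C0, C2): `LF_stmt`.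
Proof. `B = 200`, `τ = 1/1000`, `y` with `C y^(-1/20) ≤ 1/2`, `A = 2C + 2`, `D` large; `Φ(u) = A + D b^B 2^(-τu)` is a `Pot`.  Strong induction on `u` (all `s > 0`).  `s < 1`: C0 (`PR` has at most `2 · 4^u` elements).  `b > 2^(u/100)`: C0, `b^182 ≥ 2^(1.82u)`.
`s > 2^(u/400)`: C2 with `ε = 1/1000`: `card s⁷ ≤ C 2^(u/1000) b^40 4^u/s ≤ C b^40 2^(-0.0015u) 4^u`.  Otherwise `MR`: FM gives `≤ (C + Φ(u)/2) 4^u ≤ Φ(u) 4^u`. -/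
def FL_stmt : Prop := LF_stmt

/-- **FS** (medium; from LF, Z8, C0, N4, N5): `LFS_stmt`.
Proof. Good pairs: `x = √(2^u)/lamb`; `x < 1`: at most `2 · 4^u`; `x ∈ [2^k, 2^(k+1))`: LF with `s² = 2^k`: `∑_k 2^(1.5(k+1)) 2^(-3.5k) Φ 4^u`.  Pairs which are not good: a shortest vector has `RV = 0`.  If `b⁵ < 2^(u/2)`: `x < 1` trivial, `x ∈ [2^k, 2^(k+1))`: Z8 with
`V = √(2^u)/2^k` (`V b⁵ < 2^u`), `x ≤ √(2^u) b⁵`: `∑_k 2^(1.5(k+1)) C b⁵ 2^(u/2-k) 2^((1+ε)u) ≤ C b^8 2^((1.75+ε)u)`.  If `b⁵ ≥ 2^(u/2)`: `x^(3/2) ≤ 2^(3u/4) b^8` and `2 · 4^u` pairs; `b^16 ≥ 2^(1.6u)`.  Take `B = 200` or more. -/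
def FS_stmt : Prop := LFS_stmt

end Pool.Agent.T6
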